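import Mathlib
import Pool.Agent.Helper16.ETL.Near3

/-!
# E-T (MP_12a1af_nt), phase 2: abstract regions, lists of regions, hashed values

The list theory of `ETS.OwnLay` for abstract regions.  A hash function is a function of the key of a
region; the key of region `i` is the list `core z_(i-1) :: z_(i-2) :: ... :: z_0`.
-/

open Finset

namespace Pool.Agent.E2

open Pool.Agent.ETS (Hash exists_modEq_shift)

/-- a region: positions `[bot, top)`, variables, content, the part of the variable seen by the shift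
of the next region, and the random block inside the variable (`0` if there is none) -/
structure Rg where
  bot : ℕ
  top : ℕ
  V : Finset ℕ
  c : ℕ → ℕ
  core : ℕ → ℕ
  blk : ℕ → ℕ

namespace Rg

/-- length of a region -/
def len (r : Rg) : ℕ := r.top - r.bot

/-- the hash function of the remaining regions, after the variable of the first region is fixed -/
def next (r : Rg) (h : Hash) (z : ℕ) : Hash :=
  fun k => if k = [] then h [r.core z] else h (k ++ [z])

end Rg

/-- the number given by the digit blocks of a list of regions -/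
def val : List Rg → Hash → List ℕ → ℕ
  | [], _, _ => 0
  | _ :: _, _, [] => 0
  | r :: rs, h, z :: zs =>
      2 ^ r.bot * ((r.c z + h []) % 2 ^ r.len) + val rs (r.next h z) zs

/-- the hash function of the regions above `rs`, after the variables of `rs` are fixed -/
def nexts : List Rg → Hash → List ℕ → Hash
  | [], h, _ => h
  | _ :: _, h, [] => h
  | r :: rs, h, z :: zs => nexts rs (r.next h z) zs

/-- the tuples of variables of a list of regions -/
def Vs : List Rg → Finset (List ℕ)
  | [] => {[]}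
  | r :: rs => (r.V ×ˢ Vs rs).image (fun q => q.1 :: q.2)

/-- the random block of a list of regions (the sum; at most one region has a block) -/
def tau : List Rg → List ℕ → ℕ
  | [], _ => 0
  | _ :: _, [] => 0
  | r :: rs, z :: zs => r.blk z + tau rs zs

/-- the list of regions is a chain from `u` to `v` (empty regions are allowed) -/
def Chain : ℕ → List Rg → ℕ → Prop
  | u, [], v => u = v
  | u, r :: rs, v => r.bot = u ∧ r.bot ≤ r.top ∧ Chain r.top rs v

@[simp] lemma Vs_nil : Vs [] = {[]} := rfl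

lemma mem_Vs_cons {r : Rg} {rs : List Rg} {z : List ℕ} :
    z ∈ Vs (r :: rs) ↔ ∃ a t, z = a :: t ∧ a ∈ r.V ∧ t ∈ Vs rs := by
  simp only [Vs, mem_image, mem_product, Prod.exists]
  constructor
  · rintro ⟨a, t, ⟨h1, h2⟩, rfl⟩; exact ⟨a, t, rfl, h1, h2⟩
  · rintro ⟨a, t, rfl, h1, h2⟩; exact ⟨a, t, ⟨h1, h2⟩, rfl⟩

lemma cons_mem_Vs {r : Rg} {rs : List Rg} {a : ℕ} {t : List ℕ} :
    a :: t ∈ Vs (r :: rs) ↔ a ∈ r.V ∧ t ∈ Vs rs := by
  rw [mem_Vs_cons]
  constructor
  · rintro ⟨a', t', h, h1, h2⟩
    obtain ⟨rfl, rfl⟩ := List.cons.inj h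
    exact ⟨h1, h2⟩
  · rintro ⟨h1, h2⟩; exact ⟨a, t, rfl, h1, h2⟩

lemma mem_Vs_single {r : Rg} {z : List ℕ} : z ∈ Vs [r] ↔ ∃ a, z = [a] ∧ a ∈ r.V := by
  rw [mem_Vs_cons]
  constructor
  · rintro ⟨a, t, rfl, ha, ht⟩
    rw [Vs_nil, mem_singleton] at ht
    rw [ht]
    exact ⟨a, rfl, ha⟩
  · rintro ⟨a, rfl, ha⟩
    exact ⟨a, [], rfl, ha, by simp⟩

lemma mem_Vs_pair {r s : Rg} {z : List ℕ} :
    z ∈ Vs [r, s] ↔ ∃ a b, z = [a, b] ∧ a ∈ r.V ∧ b ∈ s.V := by
  rw [mem_Vs_cons]
  constructor
  · rintro ⟨a, t, rfl, ha, ht⟩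
    obtain ⟨b, rfl, hb⟩ := mem_Vs_single.mp ht
    exact ⟨a, b, rfl, ha, hb⟩
  · rintro ⟨a, b, rfl, ha, hb⟩
    exact ⟨a, [b], rfl, ha, mem_Vs_single.mpr ⟨b, rfl, hb⟩⟩

lemma length_of_mem_Vs : ∀ {rs : List Rg} {z : List ℕ}, z ∈ Vs rs → z.length = rs.length
  | [], z, h => by
    rw [Vs_nil, mem_singleton] at h
    rw [h]; rfl
  | r :: rs, z, h => by
    obtain ⟨a, t, rfl, _, ht⟩ := mem_Vs_cons.mp h
    simp [length_of_mem_Vs ht]

/-- the number of tuples of variables is the product -/
lemma card_Vs : ∀ rs : List Rg, (Vs rs).card = (rs.map (fun r => r.V.card)).prod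
  | [] => rfl
  | r :: rs => by
    rw [Vs, card_image_of_injective, card_product, card_Vs rs]
    · simp
    · intro a b h
      obtain ⟨h1, h2⟩ := List.cons.inj h
      exact Prod.ext h1 h2

lemma mem_Vs_append : ∀ {A B : List Rg} {z : List ℕ},
    z ∈ Vs (A ++ B) ↔ ∃ a b, z = a ++ b ∧ a ∈ Vs A ∧ b ∈ Vs B
  | [], B, z => by simp
  | r :: A, B, z => by
    rw [List.cons_append, mem_Vs_cons]
    constructor
    · rintro ⟨x, t, rfl, hx, ht⟩
      obtain ⟨a, b, rfl, ha, hb⟩ := mem_Vs_append.mp ht
      exact ⟨x :: a, b, rfl, cons_mem_Vs.mpr ⟨hx, ha⟩, hb⟩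
    · rintro ⟨a, b, rfl, ha, hb⟩
      obtain ⟨x, t, rfl, hx, ht⟩ := mem_Vs_cons.mp ha
      exact ⟨x, t ++ b, rfl, hx, mem_Vs_append.mpr ⟨t, b, rfl, ht, hb⟩⟩

lemma val_append : ∀ {A B : List Rg} {h : Hash} {a b : List ℕ}, a.length = A.length →
    val (A ++ B) h (a ++ b) = val A h a + val B (nexts A h a) b
  | [], B, h, a, b, hl => by
    have : a = [] := List.length_eq_zero_iff.mp (by simpa using hl)
    subst this
    simp [val, nexts]
  | r :: A, B, h, [], b, hl => by simp at hl
  | r :: A, B, h, x :: a, b, hl => by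
    have hl' : a.length = A.length := by simpa using hl
    simp only [List.cons_append, val, nexts]
    rw [val_append hl', add_assoc]

lemma nexts_append : ∀ {A B : List Rg} {h : Hash} {a b : List ℕ}, a.length = A.length →
    nexts (A ++ B) h (a ++ b) = nexts B (nexts A h a) b
  | [], B, h, a, b, hl => by
    have : a = [] := List.length_eq_zero_iff.mp (by simpa using hl)
    subst this
    simp [nexts]
  | r :: A, B, h, [], b, hl => by simp at hl
  | r :: A, B, h, x :: a, b, hl => by
    have hl' : a.length = A.length := by simpa using hl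
    simp only [List.cons_append, nexts]
    rw [nexts_append hl']

lemma tau_append : ∀ {A B : List Rg} {a b : List ℕ}, a.length = A.length →
    tau (A ++ B) (a ++ b) = tau A a + tau B b
  | [], B, a, b, hl => by
    have : a = [] := List.length_eq_zero_iff.mp (by simpa using hl)
    subst this
    simp [tau]
  | r :: A, B, [], b, hl => by simp at hl
  | r :: A, B, x :: a, b, hl => by
    have hl' : a.length = A.length := by simpa using hl
    simp only [List.cons_append, tau]
    rw [tau_append hl', add_assoc]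

/-- no region has a block -/
def NoBlk (A : List Rg) : Prop := ∀ r ∈ A, ∀ z, r.blk z = 0

lemma NoBlk.tau : ∀ {A : List Rg} {z : List ℕ}, NoBlk A → tau A z = 0
  | [], _, _ => rfl
  | _ :: _, [], _ => rfl
  | r :: A, x :: z, hA => by
    simp only [E2.tau]
    rw [hA r List.mem_cons_self, NoBlk.tau (fun s hs => hA s (List.mem_cons_of_mem _ hs))]

lemma NoBlk.append {A B : List Rg} (hA : NoBlk A) (hB : NoBlk B) : NoBlk (A ++ B) := by
  intro r hr
  rcases List.mem_append.mp hr with hr | hr
  · exact hA r hr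
  · exact hB r hr

lemma NoBlk_nil : NoBlk [] := fun r hr => by simp at hr

/-- all regions are above `v` -/
def Above (v : ℕ) (A : List Rg) : Prop := ∀ r ∈ A, v ≤ r.bot

lemma above_nil {v : ℕ} : Above v [] := fun r hr => by simp at hr

lemma above_single {v : ℕ} {r : Rg} (h : v ≤ r.bot) : Above v [r] := by
  intro s hs
  rw [List.mem_singleton] at hs
  rw [hs]; exact h

lemma Above.append {v : ℕ} {A B : List Rg} (hA : Above v A) (hB : Above v B) :
    Above v (A ++ B) := by
  intro r hr
  rcases List.mem_append.mp hr with hr | hr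
  · exact hA r hr
  · exact hB r hr

lemma Above.mono {v w : ℕ} {A : List Rg} (hA : Above v A) (h : w ≤ v) : Above w A :=
  fun r hr => h.trans (hA r hr)

lemma Above.dvd : ∀ {A : List Rg} {v : ℕ} {h : Hash} {z : List ℕ}, Above v A →
    2 ^ v ∣ val A h z
  | [], v, h, z, _ => by simp [val]
  | r :: A, v, h, [], _ => by simp [val]
  | r :: A, v, h, x :: z, hA => by
    simp only [val]
    refine dvd_add ?_ (Above.dvd (fun s hs => hA s (List.mem_cons_of_mem _ hs)))
    exact Dvd.dvd.mul_right (pow_dvd_pow 2 (hA r List.mem_cons_self)) _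

lemma Chain.le : ∀ {A : List Rg} {u v : ℕ}, Chain u A v → u ≤ v
  | [], u, v, h => le_of_eq h
  | r :: A, u, v, h => by
    obtain ⟨h1, h2, h3⟩ := h
    have := Chain.le h3
    omega

lemma Chain.above : ∀ {A : List Rg} {u v : ℕ}, Chain u A v → Above u A
  | [], u, v, _ => fun r hr => by simp at hr
  | r :: A, u, v, h => by
    obtain ⟨h1, h2, h3⟩ := h
    intro s hs
    rcases List.mem_cons.mp hs with rfl | hs
    · exact h1.ge
    · have := Chain.above h3 s hs
      omega

lemma Chain.append : ∀ {A B : List Rg} {u v w : ℕ}, Chain u A v → Chain v B w →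
    Chain u (A ++ B) w
  | [], B, u, v, w, h, h' => by
    have : u = v := h
    subst this
    simpa using h'
  | r :: A, B, u, v, w, h, h' => by
    obtain ⟨h1, h2, h3⟩ := h
    exact ⟨h1, h2, Chain.append h3 h'⟩

lemma Chain.of_append : ∀ {A B : List Rg} {u w : ℕ}, Chain u (A ++ B) w →
    ∃ v, Chain u A v ∧ Chain v B w
  | [], B, u, w, h => ⟨u, rfl, h⟩
  | r :: A, B, u, w, h => by
    obtain ⟨h1, h2, h3⟩ := h
    obtain ⟨v, h4, h5⟩ := Chain.of_append h3
    exact ⟨v, ⟨h1, h2, h4⟩, h5⟩

lemma Chain.val_lt : ∀ {A : List Rg} {u v : ℕ} {h : Hash} {z : List ℕ}, Chain u A v →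
    val A h z + 2 ^ u ≤ 2 ^ v
  | [], u, v, h, z, hc => by
    have : u = v := hc
    subst this
    simp [val]
  | r :: A, u, v, h, [], hc => by
    simp only [val, zero_add]
    exact Nat.pow_le_pow_right (by norm_num) hc.le
  | r :: A, u, v, h, x :: z, hc => by
    obtain ⟨h1, h2, h3⟩ := hc
    have ih := Chain.val_lt (h := r.next h x) (z := z) h3
    simp only [val]
    have h4 : (r.c x + h []) % 2 ^ r.len + 1 ≤ 2 ^ r.len :=
      Nat.mod_lt _ (by positivity)
    have h5 : 2 ^ r.bot * ((r.c x + h []) % 2 ^ r.len) + 2 ^ r.bot ≤ 2 ^ r.top := by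
      calc 2 ^ r.bot * ((r.c x + h []) % 2 ^ r.len) + 2 ^ r.bot
          = 2 ^ r.bot * ((r.c x + h []) % 2 ^ r.len + 1) := by ring
        _ ≤ 2 ^ r.bot * 2 ^ r.len := Nat.mul_le_mul_left _ h4
        _ = 2 ^ r.top := by
          rw [← pow_add]; congr 1; unfold Rg.len; omega
    rw [h1] at h5 ⊢
    omega

/-! ### the regions of T* -/

open Pool.Agent.ETS in
/-- a region of T* as an abstract region -/
def rgOf (C : Codes) (r : Reg) : Rg where
  bot := r.bot
  top := r.top C
  V := r.V C
  c := r.c C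
  core := r.core
  blk := match r with
    | .PT _ _ _ _ => fun z => (Nat.unpair z).2
    | .RT _ _ _ => fun z => (Nat.unpair z).2
    | _ => fun _ => 0

section old

open Pool.Agent.ETS (Codes Reg)

variable {C : Codes}

lemma rgOf_len (r : Reg) : (rgOf C r).len = r.len C := rfl

lemma rgOf_next (r : Reg) (h : Hash) (z : ℕ) : (rgOf C r).next h z = r.next h z := rfl

lemma val_old : ∀ (A : List Reg) (h : Hash) (z : List ℕ),
    val (A.map (rgOf C)) h z = ETS.val C A h z
  | [], h, z => rfl
  | r :: A, h, [] => rfl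
  | r :: A, h, x :: z => by
    simp only [List.map_cons, val, ETS.val]
    rw [rgOf_next, val_old A]
    rfl

lemma nexts_old : ∀ (A : List Reg) (h : Hash) (z : List ℕ),
    nexts (A.map (rgOf C)) h z = ETS.nexts A h z
  | [], h, z => rfl
  | r :: A, h, [] => rfl
  | r :: A, h, x :: z => by
    simp only [List.map_cons, nexts, ETS.nexts]
    rw [rgOf_next, nexts_old A]

lemma Vs_old : ∀ A : List Reg, Vs (A.map (rgOf C)) = ETS.Vs C A
  | [] => rfl
  | r :: A => by
    simp only [List.map_cons, Vs, ETS.Vs]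
    rw [Vs_old A]
    rfl

lemma chain_old : ∀ {A : List Reg} {u v : ℕ}, ETS.Chain C u A v → Chain u (A.map (rgOf C)) v
  | [], u, v, h => h
  | r :: A, u, v, h => by
    obtain ⟨h1, h2, h3⟩ := h
    exact ⟨h1, h2, chain_old h3⟩

lemma above_old {A : List Reg} {v : ℕ} (h : ETS.Above v A) : Above v (A.map (rgOf C)) := by
  intro r hr
  obtain ⟨s, hs, rfl⟩ := List.mem_map.mp hr
  exact h s hs

end old

end Pool.Agent.E2
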