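import Mathlib
import Pool.Agent.Helper16.E2.Base
import Pool.Agent.Helper16.ETL.Runs
import Pool.Agent.Helper29.E2.Sched

/-!
# E-T (MP_12a1af_nt), phase 2: the regions and the layouts
-/

open Finset

namespace Pool.Agent.E2

open Pool.Agent.ETS (Codes Reg pairs runs)
open Pool.Agent.Helper29.ETK (Kid CC)
open Pool.Agent.Helper29.E2 (Kid2 kid2 ep Wd Hd Ld av wb zb)

/-- the numbers `u_0 + 2^l u_1 + ... + 2^(l(n-1)) u_(n-1)` with all `u_i` in `S` -/
def comp (S : Finset ℕ) (l : ℕ) : ℕ → Finset ℕ
  | 0 => {0}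
  | n + 1 => (S ×ˢ comp S l n).image (fun q => q.1 + 2 ^ l * q.2)

/-- the codes: the codes of T* (`T e`, `Th e` the block sets of length `W e`, `TK K` the window set)
and: `H e`, `L e` the lengths of the mid cells and of the small cells in epoch `e`; `Sd l` the set
of the contents of a small cell of length `l`; `Th1 e`, `T1 e` the contents of a mid cell and of a
mid block with a random block, subsets of `[0, 2 ^ H e)`. -/
structure Codes2 extends Codes where
  H : ℕ → ℕ
  L : ℕ → ℕ
  Sd : ℕ → Finset ℕ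
  Th1 : ℕ → Finset ℕ
  T1 : ℕ → Finset ℕ

/-- kinds of regions:
* `old r`: a region of T* (`old (RTh e b (b + W e))`: a merged unit, `old (RT e b (b + W e))`: a unit
  with a random block);
* `cell l s`: `[s, s + l)`, small cell, variable in `Sd l`, not seen by the next shift;
* `mid e s`, `T1 e s`, `C1 e s`: `[s, s + H e)`, variable in `Th1 e`, in `T1 e`, or a tuple of
  `H e / L e` elements of `Sd (L e)`;
* `C2 e s`: `[s, s + W e)`, a tuple of `W e / H e` elements of `Th1 e`;
* `zone l s K`: `[s, K)`, variable `(u, t)`, `u ∈ Sd l`, `t ∈ TK K`. -/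
inductive Reg2
  | old (r : Reg)
  | cell (l s : ℕ)
  | mid (e s : ℕ)
  | T1 (e s : ℕ)
  | C1 (e s : ℕ)
  | C2 (e s : ℕ)
  | zone (l s K : ℕ)

/-- a region whose variable is its content -/
def setRg (s l : ℕ) (S : Finset ℕ) : Rg where
  bot := s
  top := s + l
  V := S
  c := fun z => z
  core := fun z => z
  blk := fun _ => 0

/-- the same with a random block -/
def blkRg (s l : ℕ) (S : Finset ℕ) : Rg where
  bot := s
  top := s + l
  V := S
  c := fun z => z
  core := fun z => z
  blk := fun z => z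

/-- a small cell -/
def cellRg (s l : ℕ) (S : Finset ℕ) : Rg where
  bot := s
  top := s + l
  V := S
  c := fun z => z
  core := fun _ => 0
  blk := fun _ => 0

/-- the zone -/
def zoneRg (s K l : ℕ) (S T : Finset ℕ) : Rg where
  bot := s
  top := K
  V := pairs S T
  c := fun z => (Nat.unpair z).1 + 2 ^ l * (Nat.unpair z).2
  core := fun z => z
  blk := fun _ => 0

/-- the abstract region -/
def Reg2.rg (D : Codes2) : Reg2 → Rg
  | .old r => rgOf D.toCodes r
  | .cell l s => cellRg s l (D.Sd l)
  | .mid e s => setRg s (D.H e) (D.Th1 e)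
  | .T1 e s => blkRg s (D.H e) (D.T1 e)
  | .C1 e s => setRg s (D.H e) (comp (D.Sd (D.L e)) (D.L e) (D.H e / D.L e))
  | .C2 e s => setRg s (D.W e) (comp (D.Th1 e) (D.H e) (D.W e / D.H e))
  | .zone l s K => zoneRg s K l (D.Sd l) (D.TK K)

/-! ### layouts -/

/-- index of the P code of the anchor `g` -/
def pidx (c g : ℕ) : ℕ := if g = 0 then 0 else ep c g + 1

/-- the regions of one run of kinds of T* -/
def toRegs (c t : ℕ) : Kid × ℕ × ℕ → List Reg
  | (.P g, _, e) => [Reg.P (pidx c g) g e]
  | (.PT g b, _, _) => if av c t = b + Wd c b then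
      [Reg.PT (pidx c g) (ep c b) g b, Reg.R (b + Wd c b) (b + Wd c b)] else
      [Reg.PT (pidx c g) (ep c b) g b]
  | (.R v, s, _) => [Reg.R s v]
  | (.RT v, s, _) => [Reg.RT (ep c s) s v]
  | (.RTh v, s, _) => [Reg.RTh (ep c s) s v]

/-- the regions of one run -/
def toRegs2 (c t : ℕ) : Kid2 × ℕ × ℕ → List Reg2
  | (.old k, s, e) => (toRegs c t (k, s, e)).map .old
  | (.T2 b, _, _) => [.old (.RT (ep c b) b (b + Wd c b))]
  | (.C2 b, _, _) => [.C2 (ep c b) b]
  | (.mid f, _, _) => [.mid (ep c f) f]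
  | (.T1 f, _, _) => [.T1 (ep c f) f]
  | (.C1 f, _, _) => [.C1 (ep c f) f]
  | (.cell p, _, _) => [.cell (Ld c p) p]

/-- the regions below the zone at the time `t` -/
noncomputable def body (c t : ℕ) : List Reg2 := (runs (kid2 c t) (zb c t) 0).flatMap (toRegs2 c t)

/-- the zone at the time `t` -/
def zoneReg (c t : ℕ) : Reg2 := .zone (Ld c (zb c t)) (zb c t) t

/-- the layout at the time `t` -/
noncomputable def layL (c t : ℕ) : List Reg2 := body c t ++ [zoneReg c t]

/-- the layout as a list of abstract regions -/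
noncomputable def lay (D : Codes2) (c t : ℕ) : List Rg := (layL c t).map (Reg2.rg D)

end Pool.Agent.E2
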