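import Mathlib
import Pool.Agent.Helper16.E2.Base

/-!
# E-T (MP_12a1af_nt), phase 2: weighted counting of near pairs

The weight of a solution depends on the random blocks of the two scales.  `WtLe LF w D`: on every
list of the family `LF` of lists of pairs of blocks the sum of the weights is at most `D`.
`NBw LF A A' v B`: for such weights the sum over the solutions is at most `B * lc D`.
-/

open Finset

namespace Pool.Agent.E2

open Pool.Agent.ETS (Hash exists_modEq_shift)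

/-- solutions of the congruence modulo `2 ^ v` -/
def Sol (A A' : List Rg) (h h' : Hash) (v ν : ℕ) : Finset (List ℕ × List ℕ) :=
  (Vs A ×ˢ Vs A').filter (fun q => val A h q.1 + val A' h' q.2 ≡ ν [MOD 2 ^ v])

lemma mem_Sol {A A' : List Rg} {h h' : Hash} {v ν : ℕ} {q : List ℕ × List ℕ} :
    q ∈ Sol A A' h h' v ν ↔ (q.1 ∈ Vs A ∧ q.2 ∈ Vs A') ∧
      val A h q.1 + val A' h' q.2 ≡ ν [MOD 2 ^ v] := by
  unfold Sol
  rw [mem_filter, mem_product]

/-- for all hash functions and all prescribed sums modulo `2 ^ v` there are at most `B` pairs of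
variables for the chunks `A` (scale `K`) and `A'` (scale `K'`) -/
def NB (A A' : List Rg) (v B : ℕ) : Prop :=
  ∀ (h h' : Hash) (ν : ℕ), (Sol A A' h h' v ν).card ≤ B

/-- the same for equality of numbers -/
def NBt (A A' : List Rg) (B : ℕ) : Prop :=
  ∀ (h h' : Hash) (ν : ℕ), ((Vs A ×ˢ Vs A').filter (fun q =>
    val A h q.1 + val A' h' q.2 = ν)).card ≤ B

/-- on every list of the family the sum of the weights is at most `D` -/
def WtLe (LF : Set (Finset (ℕ × ℕ))) (w : ℕ × ℕ → ℕ) (D : ℕ) : Prop :=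
  ∀ L ∈ LF, ∑ p ∈ L, w p ≤ D

/-- the loss of the decomposition into layers -/
def lc (D : ℕ) : ℕ := D * (Nat.log 2 D + 1)

lemma le_lc (D : ℕ) : D ≤ lc D := Nat.le_mul_of_pos_right _ (Nat.succ_pos _)

lemma lc_mono {D D' : ℕ} (h : D ≤ D') : lc D ≤ lc D' :=
  Nat.mul_le_mul h (Nat.succ_le_succ (Nat.log_mono_right h))

/-- weighted near bound -/
def NBw (LF : Set (Finset (ℕ × ℕ))) (A A' : List Rg) (v B : ℕ) : Prop :=
  ∀ (h h' : Hash) (ν : ℕ) (w : ℕ × ℕ → ℕ) (D : ℕ), WtLe LF w D →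
    ∑ q ∈ Sol A A' h h' v ν, w (tau A q.1, tau A' q.2) ≤ B * lc D

lemma NB.mono {A A' : List Rg} {v B B' : ℕ} (h : NB A A' v B) (hB : B ≤ B') :
    NB A A' v B' := fun a b c => (h a b c).trans hB

lemma NBt.mono {A A' : List Rg} {B B' : ℕ} (h : NBt A A' B) (hB : B ≤ B') :
    NBt A A' B' := fun a b c => (h a b c).trans hB

lemma NBw.mono {LF : Set (Finset (ℕ × ℕ))} {A A' : List Rg} {v B B' : ℕ}
    (h : NBw LF A A' v B) (hB : B ≤ B') : NBw LF A A' v B' :=
  fun a b c w D hw => (h a b c w D hw).trans (Nat.mul_le_mul_right _ hB)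

lemma NBw.mono_fam {LF LF' : Set (Finset (ℕ × ℕ))} {A A' : List Rg} {v B : ℕ}
    (h : NBw LF A A' v B) (hL : LF ⊆ LF') : NBw LF' A A' v B :=
  fun a b c w D hw => h a b c w D (fun L hL' => hw L (hL hL'))

/-- exchange of the two scales -/
def swapF (LF : Set (Finset (ℕ × ℕ))) : Set (Finset (ℕ × ℕ)) :=
  {L | L.image Prod.swap ∈ LF}

lemma Sol_swap {A A' : List Rg} {h h' : Hash} {v ν : ℕ} :
    Sol A' A h' h v ν = (Sol A A' h h' v ν).image Prod.swap := by
  ext q
  rw [mem_image]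
  constructor
  · intro hq
    refine ⟨q.swap, ?_, Prod.swap_swap q⟩
    rw [mem_Sol] at hq ⊢
    exact ⟨⟨hq.1.2, hq.1.1⟩, by rw [add_comm]; exact hq.2⟩
  · rintro ⟨p, hp, rfl⟩
    rw [mem_Sol] at hp ⊢
    exact ⟨⟨hp.1.2, hp.1.1⟩, by rw [add_comm]; exact hp.2⟩

lemma NB.symm {A A' : List Rg} {v B : ℕ} (h : NB A A' v B) : NB A' A v B := by
  intro a b c
  rw [Sol_swap]
  exact card_image_le.trans (h b a c)

lemma NBw.symm {LF : Set (Finset (ℕ × ℕ))} {A A' : List Rg} {v B : ℕ} (h : NBw LF A A' v B) :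
    NBw (swapF LF) A' A v B := by
  intro a b c w D hw
  rw [Sol_swap, sum_image (fun p _ q _ hpq => Prod.swap_injective hpq)]
  refine (le_of_eq ?_).trans (h b a c (fun p => w p.swap) D ?_)
  · rfl
  · intro L hL
    have h1 := hw (L.image Prod.swap) (by
      simp only [swapF, Set.mem_ofPred_eq, image_image]
      have : (Prod.swap ∘ Prod.swap : ℕ × ℕ → ℕ × ℕ) = id := by
        funext p; exact Prod.swap_swap p
      rw [this, image_id]
      exact hL)
    rw [sum_image (fun p _ q _ hpq => Prod.swap_injective hpq)] at h1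
    exact h1

lemma NB_nil {v : ℕ} : NB [] [] v 1 := by
  intro h h' ν
  refine (card_filter_le _ _).trans ?_
  simp

lemma NB.toNBw {LF : Set (Finset (ℕ × ℕ))} {A A' : List Rg} {v B : ℕ} (h : NB A A' v B)
    (hA : NoBlk A) (hA' : NoBlk A') (hL : {(0, 0)} ∈ LF) : NBw LF A A' v B := by
  intro a b c w D hw
  have h1 : w (0, 0) ≤ D := by simpa using hw _ hL
  calc ∑ q ∈ Sol A A' a b v c, w (tau A q.1, tau A' q.2)
      = ∑ q ∈ Sol A A' a b v c, w (0, 0) := by
        refine sum_congr rfl (fun q _ => ?_)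
        rw [hA.tau, hA'.tau]
    _ = (Sol A A' a b v c).card * w (0, 0) := by rw [sum_const, smul_eq_mul]
    _ ≤ B * lc D := Nat.mul_le_mul (h a b c) (h1.trans (le_lc D))

lemma NBw_nil {LF : Set (Finset (ℕ × ℕ))} {v : ℕ} (hL : {(0, 0)} ∈ LF) : NBw LF [] [] v 1 :=
  NB_nil.toNBw NoBlk_nil NoBlk_nil hL

/-! ### decomposition of sums -/

/-- decomposition of a sum over the solutions for two chunks: lower chunks below `v`, upper chunks
above `v`, and a relation `R` for the total which implies the congruence for the lower part -/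
lemma sum_append_le {A1 A1' A2 A2' : List Rg} {v : ℕ} (hA : Above v A2) (hA' : Above v A2')
    (h h' : Hash) (ν : ℕ) (R : ℕ → Prop) [DecidablePred R] (hR : ∀ s, R s → s ≡ ν [MOD 2 ^ v])
    (f : List ℕ × List ℕ → ℕ) :
    ∑ q ∈ (Vs (A1 ++ A2) ×ˢ Vs (A1' ++ A2')).filter (fun q =>
      R (val (A1 ++ A2) h q.1 + val (A1' ++ A2') h' q.2)), f q ≤
    ∑ p ∈ Sol A1 A1' h h' v ν, ∑ r ∈ (Vs A2 ×ˢ Vs A2').filter (fun r =>
      R ((val A1 h p.1 + val A1' h' p.2) +
        (val A2 (nexts A1 h p.1) r.1 + val A2' (nexts A1' h' p.2) r.2))),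
      f (p.1 ++ r.1, p.2 ++ r.2) := by
  classical
  set S := (Vs (A1 ++ A2) ×ˢ Vs (A1' ++ A2')).filter (fun q =>
      R (val (A1 ++ A2) h q.1 + val (A1' ++ A2') h' q.2)) with hS
  set T : List ℕ × List ℕ → Finset (List ℕ × List ℕ) := fun p =>
    (Vs A2 ×ˢ Vs A2').filter (fun r => R ((val A1 h p.1 + val A1' h' p.2) +
        (val A2 (nexts A1 h p.1) r.1 + val A2' (nexts A1' h' p.2) r.2))) with hT
  rw [Finset.sum_sigma']
  set φ : List ℕ × List ℕ → (_ : List ℕ × List ℕ) × (List ℕ × List ℕ) := fun q =>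
    ⟨(q.1.take A1.length, q.2.take A1'.length), (q.1.drop A1.length, q.2.drop A1'.length)⟩ with hφ
  have hmem : ∀ q ∈ S, φ q ∈ (Sol A1 A1' h h' v ν).sigma T ∧
      f ((φ q).1.1 ++ (φ q).2.1, (φ q).1.2 ++ (φ q).2.2) = f q := by
    intro q hq
    rw [hS, mem_filter, mem_product] at hq
    obtain ⟨⟨hq1, hq2⟩, hq3⟩ := hq
    obtain ⟨a, b, hab, ha, hb⟩ := mem_Vs_append.mp hq1
    obtain ⟨a', b', hab', ha', hb'⟩ := mem_Vs_append.mp hq2
    have la := length_of_mem_Vs ha
    have la' := length_of_mem_Vs ha'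
    have e1 : q.1.take A1.length = a := by rw [hab, ← la, List.take_left]
    have e2 : q.1.drop A1.length = b := by rw [hab, ← la, List.drop_left]
    have e3 : q.2.take A1'.length = a' := by rw [hab', ← la', List.take_left]
    have e4 : q.2.drop A1'.length = b' := by rw [hab', ← la', List.drop_left]
    rw [hab, hab', val_append la, val_append la'] at hq3
    have hval : val A1 h a + val A2 (nexts A1 h a) b +
        (val A1' h' a' + val A2' (nexts A1' h' a') b') =
        (val A1 h a + val A1' h' a') +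
          (val A2 (nexts A1 h a) b + val A2' (nexts A1' h' a') b') := by ring
    rw [hval] at hq3
    constructor
    · rw [mem_sigma, hφ]
      simp only [e1, e2, e3, e4]
      refine ⟨?_, ?_⟩
      · rw [mem_Sol]
        refine ⟨⟨ha, ha'⟩, ?_⟩
        have h3 := hR _ hq3
        have d1 : 2 ^ v ∣ val A2 (nexts A1 h a) b := hA.dvd
        have d2 : 2 ^ v ∣ val A2' (nexts A1' h' a') b' := hA'.dvd
        refine Nat.ModEq.trans ?_ h3
        show val A1 h a + val A1' h' a' ≡ _ [MOD _]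
        exact (Nat.modEq_iff_dvd' (by omega)).mpr (by
          rw [Nat.add_sub_cancel_left]; exact dvd_add d1 d2)
      · rw [hT, mem_filter, mem_product]
        exact ⟨⟨hb, hb'⟩, hq3⟩
    · simp only [hφ, List.take_append_drop]
  have hinj : Set.InjOn φ S := by
    intro q _ q' _ hqq
    simp only [hφ, Sigma.mk.injEq, Prod.mk.injEq, heq_eq_eq] at hqq
    obtain ⟨⟨h1, h2⟩, h3, h4⟩ := hqq
    refine Prod.ext ?_ ?_
    · rw [← List.take_append_drop A1.length q.1, h1, h3, List.take_append_drop]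
    · rw [← List.take_append_drop A1'.length q.2, h2, h4, List.take_append_drop]
  calc ∑ q ∈ S, f q = ∑ q ∈ S, f ((φ q).1.1 ++ (φ q).2.1, (φ q).1.2 ++ (φ q).2.2) :=
        sum_congr rfl (fun q hq => (hmem q hq).2.symm)
    _ = ∑ x ∈ S.image φ, f (x.1.1 ++ x.2.1, x.1.2 ++ x.2.2) := by
        rw [sum_image hinj]
    _ ≤ _ := sum_le_sum_of_subset (by
        intro x hx
        obtain ⟨q, hq, rfl⟩ := mem_image.mp hx
        exact (hmem q hq).1)

/-- the same for congruences -/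
lemma sum_Sol_append_le {A1 A1' A2 A2' : List Rg} {v v' : ℕ} (hv : v ≤ v') (hA : Above v A2)
    (hA' : Above v A2') (h h' : Hash) (ν : ℕ) (f : List ℕ × List ℕ → ℕ) :
    ∃ ν' : List ℕ × List ℕ → ℕ,
    ∑ q ∈ Sol (A1 ++ A2) (A1' ++ A2') h h' v' ν, f q ≤
    ∑ p ∈ Sol A1 A1' h h' v ν, ∑ r ∈ Sol A2 A2' (nexts A1 h p.1) (nexts A1' h' p.2) v' (ν' p),
      f (p.1 ++ r.1, p.2 ++ r.2) := by
  classical
  choose g hg using fun s : ℕ => exists_modEq_shift s ν (2 ^ v') (by positivity)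
  refine ⟨fun p => g (val A1 h p.1 + val A1' h' p.2), ?_⟩
  refine (sum_append_le hA hA' h h' ν (fun s => s ≡ ν [MOD 2 ^ v']) (fun s hs =>
    hs.of_dvd (pow_dvd_pow 2 hv)) f).trans ?_
  refine sum_le_sum (fun p _ => sum_le_sum_of_subset ?_)
  intro r hr
  rw [mem_filter, mem_product] at hr
  rw [mem_Sol]
  exact ⟨hr.1, hg _ _ hr.2⟩

lemma NB.append {A1 A1' A2 A2' : List Rg} {v v' B1 B2 : ℕ} (h1 : NB A1 A1' v B1)
    (h2 : NB A2 A2' v' B2) (hv : v ≤ v') (hA : Above v A2) (hA' : Above v A2') :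
    NB (A1 ++ A2) (A1' ++ A2') v' (B1 * B2) := by
  intro h h' ν
  obtain ⟨ν', hν'⟩ := sum_Sol_append_le (A1 := A1) (A1' := A1') hv hA hA' h h' ν (fun _ => 1)
  rw [card_eq_sum_ones]
  refine hν'.trans ?_
  calc ∑ p ∈ Sol A1 A1' h h' v ν, ∑ r ∈ Sol A2 A2' (nexts A1 h p.1) (nexts A1' h' p.2) v' (ν' p), 1
      ≤ ∑ p ∈ Sol A1 A1' h h' v ν, B2 := by
        refine sum_le_sum (fun p _ => ?_)
        rw [← card_eq_sum_ones]
        exact h2 _ _ _
    _ = (Sol A1 A1' h h' v ν).card * B2 := by rw [sum_const, smul_eq_mul]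
    _ ≤ B1 * B2 := Nat.mul_le_mul_right _ (h1 h h' ν)

/-- a chunk without blocks below a chunk with blocks -/
lemma NBw.append_left {LF : Set (Finset (ℕ × ℕ))} {A1 A1' A2 A2' : List Rg} {v v' B1 B2 : ℕ}
    (h1 : NB A1 A1' v B1) (h2 : NBw LF A2 A2' v' B2) (hn : NoBlk A1) (hn' : NoBlk A1')
    (hv : v ≤ v') (hA : Above v A2) (hA' : Above v A2') :
    NBw LF (A1 ++ A2) (A1' ++ A2') v' (B1 * B2) := by
  intro h h' ν w D hw
  obtain ⟨ν', hν'⟩ := sum_Sol_append_le (A1 := A1) (A1' := A1') hv hA hA' h h' ν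
    (fun q => w (tau (A1 ++ A2) q.1, tau (A1' ++ A2') q.2))
  refine hν'.trans ?_
  calc ∑ p ∈ Sol A1 A1' h h' v ν, ∑ r ∈ Sol A2 A2' (nexts A1 h p.1) (nexts A1' h' p.2) v' (ν' p),
        w (tau (A1 ++ A2) (p.1 ++ r.1), tau (A1' ++ A2') (p.2 ++ r.2))
      ≤ ∑ p ∈ Sol A1 A1' h h' v ν, B2 * lc D := by
        refine sum_le_sum (fun p hp => ?_)
        rw [mem_Sol] at hp
        refine (le_of_eq ?_).trans (h2 (nexts A1 h p.1) (nexts A1' h' p.2) (ν' p) w D hw)
        refine sum_congr rfl (fun r _ => ?_)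
        rw [tau_append (length_of_mem_Vs hp.1.1), tau_append (length_of_mem_Vs hp.1.2), hn.tau,
          hn'.tau, zero_add, zero_add]
    _ = (Sol A1 A1' h h' v ν).card * (B2 * lc D) := by rw [sum_const, smul_eq_mul]
    _ ≤ B1 * (B2 * lc D) := Nat.mul_le_mul_right _ (h1 h h' ν)
    _ = B1 * B2 * lc D := by ring

/-- a chunk without blocks above a chunk with blocks -/
lemma NBw.append_right {LF : Set (Finset (ℕ × ℕ))} {A1 A1' A2 A2' : List Rg} {v v' B1 B2 : ℕ}
    (h1 : NBw LF A1 A1' v B1) (h2 : NB A2 A2' v' B2) (hn : NoBlk A2) (hn' : NoBlk A2')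
    (hv : v ≤ v') (hA : Above v A2) (hA' : Above v A2') :
    NBw LF (A1 ++ A2) (A1' ++ A2') v' (B1 * B2) := by
  intro h h' ν w D hw
  obtain ⟨ν', hν'⟩ := sum_Sol_append_le (A1 := A1) (A1' := A1') hv hA hA' h h' ν
    (fun q => w (tau (A1 ++ A2) q.1, tau (A1' ++ A2') q.2))
  refine hν'.trans ?_
  calc ∑ p ∈ Sol A1 A1' h h' v ν, ∑ r ∈ Sol A2 A2' (nexts A1 h p.1) (nexts A1' h' p.2) v' (ν' p),
        w (tau (A1 ++ A2) (p.1 ++ r.1), tau (A1' ++ A2') (p.2 ++ r.2))
      ≤ ∑ p ∈ Sol A1 A1' h h' v ν, B2 * w (tau A1 p.1, tau A1' p.2) := by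
        refine sum_le_sum (fun p hp => ?_)
        rw [mem_Sol] at hp
        calc ∑ r ∈ Sol A2 A2' (nexts A1 h p.1) (nexts A1' h' p.2) v' (ν' p),
              w (tau (A1 ++ A2) (p.1 ++ r.1), tau (A1' ++ A2') (p.2 ++ r.2))
            = ∑ r ∈ Sol A2 A2' (nexts A1 h p.1) (nexts A1' h' p.2) v' (ν' p),
              w (tau A1 p.1, tau A1' p.2) := by
              refine sum_congr rfl (fun r _ => ?_)
              rw [tau_append (length_of_mem_Vs hp.1.1), tau_append (length_of_mem_Vs hp.1.2),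
                hn.tau, hn'.tau, add_zero, add_zero]
          _ = (Sol A2 A2' (nexts A1 h p.1) (nexts A1' h' p.2) v' (ν' p)).card *
              w (tau A1 p.1, tau A1' p.2) := by rw [sum_const, smul_eq_mul]
          _ ≤ _ := Nat.mul_le_mul_right _ (h2 _ _ _)
    _ = B2 * ∑ p ∈ Sol A1 A1' h h' v ν, w (tau A1 p.1, tau A1' p.2) := by rw [mul_sum]
    _ ≤ B2 * (B1 * lc D) := Nat.mul_le_mul_left _ (h1 h h' ν w D hw)
    _ = B1 * B2 * lc D := by ring

/-- plain bound for the lower part, bound for numbers for the upper part -/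
lemma NB.append_top {A1 A1' A2 A2' : List Rg} {v B1 B2 : ℕ} (h1 : NB A1 A1' v B1)
    (h2 : NBt A2 A2' B2) (hA : Above v A2) (hA' : Above v A2') :
    NBt (A1 ++ A2) (A1' ++ A2') (B1 * B2) := by
  intro h h' ν
  rw [card_eq_sum_ones]
  refine (sum_append_le hA hA' h h' ν (fun s => s = ν) (fun s hs => by rw [hs])
    (fun _ => 1)).trans ?_
  calc ∑ p ∈ Sol A1 A1' h h' v ν, ∑ r ∈ (Vs A2 ×ˢ Vs A2').filter (fun r =>
      (val A1 h p.1 + val A1' h' p.2) +
        (val A2 (nexts A1 h p.1) r.1 + val A2' (nexts A1' h' p.2) r.2) = ν), 1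
      ≤ ∑ p ∈ Sol A1 A1' h h' v ν, B2 := by
        refine sum_le_sum (fun p _ => ?_)
        rw [← card_eq_sum_ones]
        set s := val A1 h p.1 + val A1' h' p.2 with hs
        by_cases hle : s ≤ ν
        · refine (card_le_card ?_).trans (h2 (nexts A1 h p.1) (nexts A1' h' p.2) (ν - s))
          intro q hq
          rw [mem_filter] at hq ⊢
          exact ⟨hq.1, by omega⟩
        · rw [Finset.filter_false_of_mem]
          · simp
          · intro q _
            omega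
    _ = (Sol A1 A1' h h' v ν).card * B2 := by rw [sum_const, smul_eq_mul]
    _ ≤ B1 * B2 := Nat.mul_le_mul_right _ (h1 h h' ν)

/-! ### layers -/

lemma sum_div_le (D : ℕ) : ∀ n, ∑ k ∈ Icc 1 n, D / k ≤ D * (Nat.log 2 n + 1) := by
  have key : ∀ m, ∑ k ∈ Ico 1 (2 ^ m), D / k ≤ D * m := by
    intro m
    induction m with
    | zero => simp
    | succ m ih =>
      have h1 : (1:ℕ) ≤ 2 ^ m := Nat.one_le_two_pow
      have h2 : 2 ^ m ≤ 2 ^ (m + 1) := Nat.pow_le_pow_right (by norm_num) (by omega)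
      rw [← sum_Ico_consecutive _ h1 h2]
      have h3 : ∑ k ∈ Ico (2 ^ m) (2 ^ (m + 1)), D / k ≤ D := by
        calc ∑ k ∈ Ico (2 ^ m) (2 ^ (m + 1)), D / k
            ≤ ∑ k ∈ Ico (2 ^ m) (2 ^ (m + 1)), D / 2 ^ m := by
              refine sum_le_sum (fun k hk => ?_)
              rw [mem_Ico] at hk
              exact Nat.div_le_div_left hk.1 (by positivity)
          _ = 2 ^ m * (D / 2 ^ m) := by
              rw [sum_const, Nat.card_Ico, smul_eq_mul]
              congr 1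
              rw [pow_succ]; omega
          _ ≤ D := Nat.mul_div_le _ _
      rw [mul_add, mul_one]
      omega
  intro n
  rcases Nat.eq_zero_or_pos n with rfl | hn
  · simp
  refine le_trans ?_ (key (Nat.log 2 n + 1))
  refine sum_le_sum_of_subset ?_
  intro k hk
  rw [mem_Icc] at hk
  rw [mem_Ico]
  exact ⟨hk.1, lt_of_le_of_lt hk.2 (Nat.lt_pow_succ_log_self (by norm_num) n)⟩

/-- decomposition of a weight into layers -/
lemma sum_layers {α : Type*} (S : Finset α) (w : α → ℕ) (D : ℕ) (hw : ∀ s ∈ S, w s ≤ D) :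
    ∑ s ∈ S, w s = ∑ k ∈ Icc 1 D, (S.filter (fun s => k ≤ w s)).card := by
  classical
  have h1 : ∀ s ∈ S, w s = ∑ k ∈ Icc 1 D, if k ≤ w s then 1 else 0 := by
    intro s hs
    rw [← sum_filter, ← card_eq_sum_ones]
    have : (Icc 1 D).filter (fun k => k ≤ w s) = Icc 1 (w s) := by
      ext k
      rw [mem_filter, mem_Icc, mem_Icc]
      have := hw s hs
      omega
    rw [this, Nat.card_Icc]
    omega
  rw [sum_congr rfl h1, sum_comm]
  refine sum_congr rfl (fun k _ => ?_)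
  rw [← sum_filter, ← card_eq_sum_ones]

/-- a weighted bound from bounds for the layers -/
lemma sum_le_of_layers {α : Type*} (S : Finset α) (w : α → ℕ) (B D : ℕ)
    (hw : ∀ s ∈ S, w s ≤ D) (h : ∀ k, 1 ≤ k → k ≤ D →
      (S.filter (fun s => k ≤ w s)).card ≤ B * (D / k)) :
    ∑ s ∈ S, w s ≤ B * lc D := by
  rw [sum_layers S w D hw]
  calc ∑ k ∈ Icc 1 D, (S.filter (fun s => k ≤ w s)).card
      ≤ ∑ k ∈ Icc 1 D, B * (D / k) := by
        refine sum_le_sum (fun k hk => ?_)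
        rw [mem_Icc] at hk
        exact h k hk.1 hk.2
    _ = B * ∑ k ∈ Icc 1 D, D / k := by rw [mul_sum]
    _ ≤ B * lc D := Nat.mul_le_mul_left _ (sum_div_le D D)

end Pool.Agent.E2
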