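import Mathlib
import Pool.Agent.Helper16.E2.Wt

/-!
# E-T (MP_12a1af_nt), phase 2: families of lists, weighted bounds from bounds for subsets
-/

open Finset

namespace Pool.Agent.E2

open Pool.Agent.ETS (Hash)

/-- lists for pairs in which only the first scale has a block -/
def famL (T : Finset ℕ) (Q : Set (Finset ℕ)) : Set (Finset (ℕ × ℕ)) :=
  {L | ∃ q ∈ Q, L = (T ∩ q) ×ˢ {0}}

/-- lists for pairs in which only the second scale has a block -/
def famR (T : Finset ℕ) (Q : Set (Finset ℕ)) : Set (Finset (ℕ × ℕ)) :=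
  {L | ∃ q ∈ Q, L = {0} ×ˢ (T ∩ q)}

/-- lists for pairs in which both scales have a block at the same place, of length `n` -/
def famB (T : Finset ℕ) (n : ℕ) : Set (Finset (ℕ × ℕ)) :=
  {L | ∃ ν : ℕ, L = (T ×ˢ T).filter (fun p => p.1 + p.2 ≡ ν [MOD 2 ^ n])}

/-- the family for pairs without blocks -/
def fam0 : Set (Finset (ℕ × ℕ)) := {{(0, 0)}}

lemma mem_fam0 : ({(0, 0)} : Finset (ℕ × ℕ)) ∈ fam0 := rfl

lemma swapF_famL (T : Finset ℕ) (Q : Set (Finset ℕ)) : swapF (famL T Q) ⊆ famR T Q := by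
  intro L hL
  obtain ⟨q, hq, he⟩ := hL
  refine ⟨q, hq, ?_⟩
  ext p
  have h1 : p ∈ L ↔ p.swap ∈ L.image Prod.swap := by
    rw [mem_image]
    constructor
    · intro hp
      exact ⟨p, hp, rfl⟩
    · rintro ⟨x, hx, hxe⟩
      rwa [← Prod.swap_injective hxe]
  rw [h1, he, mem_product, mem_product]
  simp only [Prod.fst_swap, Prod.snd_swap]
  tauto

lemma swapF_famR (T : Finset ℕ) (Q : Set (Finset ℕ)) : swapF (famR T Q) ⊆ famL T Q := by
  intro L hL
  obtain ⟨q, hq, he⟩ := hL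
  refine ⟨q, hq, ?_⟩
  ext p
  have h1 : p ∈ L ↔ p.swap ∈ L.image Prod.swap := by
    rw [mem_image]
    constructor
    · intro hp
      exact ⟨p, hp, rfl⟩
    · rintro ⟨x, hx, hxe⟩
      rwa [← Prod.swap_injective hxe]
  rw [h1, he, mem_product, mem_product]
  simp only [Prod.fst_swap, Prod.snd_swap]
  tauto

/-- **one-sided lists from bounds for subsets of the block set** -/
theorem NBw_of_layersL {T : Finset ℕ} {Q : Set (Finset ℕ)} {A A' : List Rg} {v B : ℕ}
    (hA' : NoBlk A') (hT : ∀ z ∈ Vs A, tau A z ∈ T) (hcov : ∀ t ∈ T, ∃ q ∈ Q, t ∈ q)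
    (h : ∀ T' ⊆ T, ∀ m, 1 ≤ m → (∀ q ∈ Q, (T' ∩ q).card ≤ m) → ∀ g g' ν,
      ((Sol A A' g g' v ν).filter (fun q => tau A q.1 ∈ T')).card ≤ B * m) :
    NBw (famL T Q) A A' v B := by
  classical
  intro g g' ν w D hw
  have hcard : ∀ q ∈ Q, ∑ t ∈ T ∩ q, w (t, 0) ≤ D := by
    intro q hq
    have := hw _ ⟨q, hq, rfl⟩
    rwa [sum_product, sum_congr rfl (fun t _ => sum_singleton (fun y => w (t, y)) 0)] at this
  refine sum_le_of_layers _ _ B D ?_ ?_
  · intro s hs
    rw [mem_Sol] at hs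
    have ht := hT _ hs.1.1
    obtain ⟨q, hq, htq⟩ := hcov _ ht
    rw [hA'.tau]
    exact (single_le_sum (f := fun t => w (t, 0)) (fun _ _ => Nat.zero_le _)
      (mem_inter.mpr ⟨ht, htq⟩)).trans (hcard q hq)
  · intro k hk1 hkD
    refine le_trans (card_le_card ?_) (h (T.filter (fun t => k ≤ w (t, 0))) (filter_subset _ _)
      (D / k) (Nat.div_pos hkD hk1) ?_ g g' ν)
    · intro s hs
      rw [mem_filter] at hs ⊢
      have h1 := hs.2
      rw [hA'.tau] at h1
      exact ⟨hs.1, mem_filter.mpr ⟨hT _ (mem_Sol.mp hs.1).1.1, h1⟩⟩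
    · intro q hq
      rw [Nat.le_div_iff_mul_le hk1, ← smul_eq_mul]
      refine le_trans ?_ (hcard q hq)
      calc (T.filter (fun t => k ≤ w (t, 0)) ∩ q).card • k
          ≤ ∑ t ∈ T.filter (fun t => k ≤ w (t, 0)) ∩ q, w (t, 0) := by
            refine card_nsmul_le_sum _ _ _ ?_
            intro t ht
            exact (mem_filter.mp (mem_inter.mp ht).1).2
        _ ≤ ∑ t ∈ T ∩ q, w (t, 0) :=
            sum_le_sum_of_subset (inter_subset_inter_right (filter_subset _ _))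

/-- the same with the block on the second side -/
theorem NBw_of_layersR {T : Finset ℕ} {Q : Set (Finset ℕ)} {A A' : List Rg} {v B : ℕ}
    (hA : NoBlk A) (hT : ∀ z ∈ Vs A', tau A' z ∈ T) (hcov : ∀ t ∈ T, ∃ q ∈ Q, t ∈ q)
    (h : ∀ T' ⊆ T, ∀ m, 1 ≤ m → (∀ q ∈ Q, (T' ∩ q).card ≤ m) → ∀ g g' ν,
      ((Sol A A' g g' v ν).filter (fun q => tau A' q.2 ∈ T')).card ≤ B * m) :
    NBw (famR T Q) A A' v B := by
  classical
  refine (NBw_of_layersL (A := A') (A' := A) hA hT hcov ?_).symm.mono_fam (swapF_famL T Q)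
  intro T' hT' m hm hq g g' ν
  refine le_trans (le_of_eq ?_) (h T' hT' m hm hq g' g ν)
  rw [Sol_swap, filter_image, card_image_of_injective _ Prod.swap_injective]
  rfl

end Pool.Agent.E2
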