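import Mathlib
import Pool.Agent.Helper16.E2.Layers

/-!
# E-T (MP_12a1af_nt), phase 2: codes with a smaller block set, solutions with a block in it
-/

open Finset

namespace Pool.Agent.E2

open Pool.Agent.ETS (Hash Codes Reg pairs mem_pairs PB)

/-- the codes with the block set `T'` of length `W e` -/
def setT (C : Codes) (e : ℕ) (T' : Finset ℕ) : Codes := { C with T := Function.update C.T e T' }

variable {C : Codes} {e : ℕ} {T' : Finset ℕ}

@[simp] lemma setT_T_same : (setT C e T').T e = T' := by simp [setT]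

lemma setT_W : (setT C e T').W = C.W := rfl

lemma setT_c (r : Reg) : r.c (setT C e T') = r.c C := by cases r <;> rfl

lemma setT_top (r : Reg) : r.top (setT C e T') = r.top C := by cases r <;> rfl

lemma setT_len (r : Reg) : r.len (setT C e T') = r.len C := by
  unfold ETS.Reg.len; rw [setT_top]

/-- the region has no random block -/
def NoT : Reg → Prop
  | .PT _ _ _ _ => False
  | .RT _ _ _ => False
  | _ => True

lemma setT_V {r : Reg} (h : NoT r) : r.V (setT C e T') = r.V C := by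
  cases r <;> first | rfl | exact h.elim

lemma blk_noT {r : Reg} (h : NoT r) (z : ℕ) : (rgOf C r).blk z = 0 := by
  cases r <;> first | rfl | exact h.elim

lemma noBlk_of {A : List Reg} (h : ∀ r ∈ A, NoT r) : NoBlk (A.map (rgOf C)) := by
  intro r hr z
  obtain ⟨s, hs, rfl⟩ := List.mem_map.mp hr
  exact blk_noT (h s hs) z

/-- the region has a block of epoch `e` -/
def IsT (e : ℕ) : Reg → Prop
  | .PT _ e' _ _ => e' = e
  | .RT e' _ _ => e' = e
  | _ => False

lemma mem_setT_V {r : Reg} (h : IsT e r) {z : ℕ} (hz : z ∈ r.V C)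
    (ht : (rgOf C r).blk z ∈ T') : z ∈ r.V (setT C e T') := by
  cases r with
  | PT p e' f b =>
    have he : e' = e := h
    subst he
    simp only [Reg.V, mem_pairs] at hz ⊢
    exact ⟨hz.1, by rw [setT_T_same]; exact ht⟩
  | RT e' b v =>
    have he : e' = e := h
    subst he
    simp only [Reg.V, mem_pairs] at hz ⊢
    exact ⟨hz.1, by rw [setT_T_same]; exact ht⟩
  | P => exact h.elim
  | R => exact h.elim
  | RTh => exact h.elim
  | win => exact h.elim
  | winC => exact h.elim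

lemma blk_mem_T {r : Reg} (h : IsT e r) {z : ℕ} (hz : z ∈ r.V C) : (rgOf C r).blk z ∈ C.T e := by
  cases r with
  | PT p e' f b =>
    have he : e' = e := h
    subst he
    simp only [Reg.V, mem_pairs] at hz
    exact hz.2
  | RT e' b v =>
    have he : e' = e := h
    subst he
    simp only [Reg.V, mem_pairs] at hz
    exact hz.2
  | P => exact h.elim
  | R => exact h.elim
  | RTh => exact h.elim
  | win => exact h.elim
  | winC => exact h.elim

lemma setT_val : ∀ (A : List Reg) (h : Hash) (z : List ℕ),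
    ETS.val (setT C e T') A h z = ETS.val C A h z
  | [], _, _ => rfl
  | _ :: _, _, [] => rfl
  | r :: A, h, x :: z => by
    simp only [ETS.val]
    rw [setT_val A, setT_c, setT_len]

/-- exactly one region of the list has a block, it is of epoch `e` -/
def OneT (e : ℕ) (A : List Reg) : Prop :=
  ∃ A1 r A2, A = A1 ++ r :: A2 ∧ (∀ s ∈ A1, NoT s) ∧ IsT e r ∧ ∀ s ∈ A2, NoT s

lemma setT_Vs_noT : ∀ {A : List Reg}, (∀ r ∈ A, NoT r) → ETS.Vs (setT C e T') A = ETS.Vs C A
  | [], _ => rfl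
  | r :: A, h => by
    simp only [ETS.Vs]
    rw [setT_V (h r List.mem_cons_self),
      setT_Vs_noT (fun s hs => h s (List.mem_cons_of_mem _ hs))]

lemma OneT.tau_mem {A : List Reg} (hA : OneT e A) {z : List ℕ} (hz : z ∈ ETS.Vs C A) :
    tau (A.map (rgOf C)) z ∈ C.T e := by
  obtain ⟨A1, r, A2, rfl, h1, h2, h3⟩ := hA
  obtain ⟨a, b, rfl, ha, hb⟩ := ETS.mem_Vs_append.mp hz
  obtain ⟨x, y, rfl, hx, hy⟩ := ETS.mem_Vs_cons.mp hb
  rw [List.map_append, tau_append (by rw [List.length_map]; exact ETS.length_of_mem_Vs ha),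
    (noBlk_of h1).tau, zero_add, List.map_cons]
  simp only [tau]
  rw [(noBlk_of h3).tau, add_zero]
  exact blk_mem_T h2 hx

lemma OneT.mem_Vs {A : List Reg} (hA : OneT e A) {z : List ℕ} (hz : z ∈ ETS.Vs C A)
    (ht : tau (A.map (rgOf C)) z ∈ T') : z ∈ ETS.Vs (setT C e T') A := by
  obtain ⟨A1, r, A2, rfl, h1, h2, h3⟩ := hA
  obtain ⟨a, b, rfl, ha, hb⟩ := ETS.mem_Vs_append.mp hz
  obtain ⟨x, y, rfl, hx, hy⟩ := ETS.mem_Vs_cons.mp hb
  rw [List.map_append, tau_append (by rw [List.length_map]; exact ETS.length_of_mem_Vs ha),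
    (noBlk_of h1).tau, zero_add, List.map_cons] at ht
  simp only [tau] at ht
  rw [(noBlk_of h3).tau, add_zero] at ht
  rw [ETS.mem_Vs_append]
  refine ⟨a, x :: y, rfl, by rw [setT_Vs_noT h1]; exact ha, ?_⟩
  rw [ETS.cons_mem_Vs]
  exact ⟨mem_setT_V h2 hx ht, by rw [setT_Vs_noT h3]; exact hy⟩

lemma Sol_old (A A' : List Reg) (g g' : Hash) (v ν : ℕ) :
    Sol (A.map (rgOf C)) (A'.map (rgOf C)) g g' v ν =
      (ETS.Vs C A ×ˢ ETS.Vs C A').filter (fun q =>
        ETS.val C A g q.1 + ETS.val C A' g' q.2 ≡ ν [MOD 2 ^ v]) := by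
  unfold Sol
  rw [Vs_old, Vs_old]
  simp only [val_old]

lemma NB_old {A A' : List Reg} {v B : ℕ} (h : ETS.NB C A A' v B) :
    NB (A.map (rgOf C)) (A'.map (rgOf C)) v B := by
  intro g g' ν
  rw [Sol_old]
  exact h g g' ν

/-- one-sided lists, block on the second side -/
theorem NBw_oneR {Q : Set (Finset ℕ)} {A A' : List Reg} {v B : ℕ} (hA : ∀ r ∈ A, NoT r)
    (hA' : OneT e A') (hcov : ∀ t ∈ C.T e, ∃ q ∈ Q, t ∈ q)
    (h : ∀ T' ⊆ C.T e, ∀ m, 1 ≤ m → (∀ q ∈ Q, (T' ∩ q).card ≤ m) →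
      ETS.NB (setT C e T') A A' v (B * m)) :
    NBw (famR (C.T e) Q) (A.map (rgOf C)) (A'.map (rgOf C)) v B := by
  classical
  refine NBw_of_layersR (noBlk_of hA) (fun z hz => ?_) hcov ?_
  · rw [Vs_old] at hz
    exact hA'.tau_mem hz
  · intro T' hT' m hm hq g g' ν
    refine le_trans (card_le_card ?_) (h T' hT' m hm hq g g' ν)
    intro q hq'
    rw [mem_filter, Sol_old, mem_filter, mem_product] at hq'
    obtain ⟨⟨⟨h1, h2⟩, h3⟩, h4⟩ := hq'
    rw [mem_filter, mem_product]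
    refine ⟨⟨by rw [setT_Vs_noT hA]; exact h1, hA'.mem_Vs h2 h4⟩, ?_⟩
    rw [setT_val, setT_val]
    exact h3

/-- one-sided lists, block on the first side -/
theorem NBw_oneL {Q : Set (Finset ℕ)} {A A' : List Reg} {v B : ℕ} (hA : OneT e A)
    (hA' : ∀ r ∈ A', NoT r) (hcov : ∀ t ∈ C.T e, ∃ q ∈ Q, t ∈ q)
    (h : ∀ T' ⊆ C.T e, ∀ m, 1 ≤ m → (∀ q ∈ Q, (T' ∩ q).card ≤ m) →
      ETS.NB (setT C e T') A A' v (B * m)) :
    NBw (famL (C.T e) Q) (A.map (rgOf C)) (A'.map (rgOf C)) v B :=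
  (NBw_oneR hA' hA hcov (fun T' hT' m hm hq => (h T' hT' m hm hq).symm)).symm.mono_fam
    (swapF_famR _ _)

end Pool.Agent.E2
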