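import Mathlib
import Pool.Agent.Helper16.E2.Fam
import Pool.Agent.Helper83.E2.Cat

/-!
# E-T (MP_12a1af_nt), phase 2: what the near theorem needs of the codes
-/

open Finset

namespace Pool.Agent.E2

open Pool.Agent.ETS (Codes Reg pairs PB RSB)
open Pool.Agent.Helper29.ETK (CC)
open Pool.Agent.Helper29.E2 (ep Wd Hd Ld hh ll)

/-- bounds for one-sided lists, T* kinds of epoch `e`: for all subsets `T'` of `T e` with at most `m`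
elements in every set of the family `Q` -/
structure OneSided (C : Codes) (e A : ℕ) (Q : Set (Finset ℕ)) : Prop where
  cov : ∀ t ∈ C.T e, ∃ q ∈ Q, t ∈ q
  RRT : ∀ T' ⊆ C.T e, ∀ m, 1 ≤ m → (∀ q ∈ Q, (T' ∩ q).card ≤ m) → ∀ b v, b + C.W e ≤ v →
    C.W e ∣ v - b → PB (setT C e T') (Reg.R b v) (Reg.RT e b v) (A * m)
  RTRTh : ∀ T' ⊆ C.T e, ∀ m, 1 ≤ m → (∀ q ∈ Q, (T' ∩ q).card ≤ m) → ∀ b v, b + C.W e ≤ v →
    C.W e ∣ v - b → PB (setT C e T') (Reg.RT e b v) (Reg.RTh e b v) (A * m)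
  RS : ∀ T' ⊆ C.T e, ∀ m, 1 ≤ m → (∀ q ∈ Q, (T' ∩ q).card ≤ m) → ∀ l, C.W e ≤ l →
    C.W e ∣ l → RSB (setT C e T') e l (A * m)

/-- bounds for one-sided lists, `PT` against `P` -/
def OneSidedP (C : Codes) (e A : ℕ) (Q : Set (Finset ℕ)) (p g b : ℕ) : Prop :=
  ∀ T' ⊆ C.T e, ∀ m, 1 ≤ m → (∀ q ∈ Q, (T' ∩ q).card ≤ m) →
    PB (setT C e T') (Reg.PT p e g b) (Reg.P p g (b + C.W e)) (A * m)

/-- all hypotheses on the codes of the near theorem; `μ` an absolute constant, `A` a constant, `QW`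
and `QH` the families of test sets for the blocks of the units and of the mid blocks -/
structure NearCodes2 (c e1 : ℕ) (D : Codes2) (μ A : ℕ) (QW QH : ℕ → Set (Finset ℕ)) : Prop where
  W : ∀ e, D.W e = CC c ^ e
  H : ∀ e, e1 ≤ e → D.H e = hh c e
  L : ∀ e, e1 ≤ e → D.L e = ll c e
  mu : 8 ≤ μ
  oneA : 1 ≤ A
  X0 : ∀ p, (D.X p 0).card ≤ 1
  Y0 : (D.Y 0).card ≤ 1
  res : ∀ p l k x, x ∈ D.X p l → l ≤ k → D.P p k x ≡ D.P p l x [MOD 2 ^ l]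
  -- rest regions
  PP : ∀ p f b, f < b → PB D.toCodes (Reg.P p f b) (Reg.P p f b) μ
  RR : ∀ b v, b < v → PB D.toCodes (Reg.R b v) (Reg.R b v) μ
  ThTh : ∀ e b v, e1 ≤ e → b + D.W e ≤ v → D.W e ∣ v - b →
    PB D.toCodes (Reg.RTh e b v) (Reg.RTh e b v) μ
  cell : ∀ e s, e1 ≤ e → PBr (Reg2.rg D (.cell (ll c e) s)) (Reg2.rg D (.cell (ll c e) s)) μ
  mid : ∀ e s, e1 ≤ e → PBr (Reg2.rg D (.mid e s)) (Reg2.rg D (.mid e s)) μ
  C1 : ∀ e s, e1 ≤ e → PBr (Reg2.rg D (.C1 e s)) (Reg2.rg D (.C1 e s)) (μ ^ (hh c e / ll c e))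
  C2 : ∀ e s, e1 ≤ e → PBr (Reg2.rg D (.C2 e s)) (Reg2.rg D (.C2 e s)) (μ ^ (CC c ^ e / hh c e))
  -- the cell of T* in action
  one : ∀ e, e1 ≤ e → OneSided D.toCodes e A (QW e)
  PTP : ∀ g b, e1 ≤ ep c b → g ≤ b → Wd c b ∣ b → Wd c b ∣ g → (g = 0 ∨ ep c g = ep c b) →
    OneSidedP D.toCodes (ep c b) A (QW (ep c b)) (pidx c g) g b
  RTRT : ∀ e b v, e1 ≤ e → b + D.W e ≤ v → D.W e ∣ v - b →
    PBw (famB (D.T e) (D.W e)) (rgOf D.toCodes (Reg.RT e b v)) (rgOf D.toCodes (Reg.RT e b v)) A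
  PTPT : ∀ g b, e1 ≤ ep c b → g ≤ b → Wd c b ∣ b → Wd c b ∣ g → (g = 0 ∨ ep c g = ep c b) →
    PBw (famB (D.T (ep c b)) (D.W (ep c b))) (rgOf D.toCodes (Reg.PT (pidx c g) (ep c b) g b))
      (rgOf D.toCodes (Reg.PT (pidx c g) (ep c b) g b)) A
  -- the unit in action
  unit : ∀ b j j', e1 ≤ ep c b → Wd c b ∣ b → j ≤ 3 → j' ≤ 3 → (j = j' ∨ j = j' + 1 ∨ j' = j + 1) →
    NBw (LF D QW QH (tsL (unitRegs c b j)) (tsL (unitRegs c b j')))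
      ((unitRegs c b j).map (Reg2.rg D)) ((unitRegs c b j').map (Reg2.rg D)) (b + Wd c b)
      (μ ^ (Wd c b / Hd c b))
  -- the mid block in action
  block : ∀ f j j', e1 ≤ ep c f → Hd c f ∣ f → j ≤ 3 → j' ≤ 3 →
    (j = j' ∨ j = j' + 1 ∨ j' = j + 1) →
    NBw (LF D QW QH (tsL (blockRegs c f j)) (tsL (blockRegs c f j')))
      ((blockRegs c f j).map (Reg2.rg D)) ((blockRegs c f j').map (Reg2.rg D)) (f + Hd c f)
      (μ ^ (Hd c f / Ld c f))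

end Pool.Agent.E2
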