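import Mathlib
import Pool.Agent.Helper16.E2.Codes

/-!
# E-T (MP_12a1af_nt), phase 2: the near lemma for the cell of T* in action
-/

open Finset

namespace Pool.Agent.E2

open Pool.Agent.ETS (Codes Reg pairs PB RSB Pl)
open Pool.Agent.Helper29.ETK (Kid CC)
open Pool.Agent.Helper29.E2 (ep Wd Hd Ld hh ll)

/-- the T-state of a list of regions of T* -/
def tsR (A : List Reg) : TS := tsL (A.map Reg2.old)

/-- the regions of a cell in the state `σ` -/
def cellRegs (c g b v σ : ℕ) : List Reg :=
  if σ = 0 then Pl (pidx c g) g b ++ [Reg.RTh (ep c b) b v] else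
  if σ = 1 then [Reg.PT (pidx c g) (ep c b) g b, Reg.R (b + Wd c b) v] else
  if σ = 2 then [Reg.P (pidx c g) g (b + Wd c b)] ++
    (if b + Wd c b < v then [Reg.R (b + Wd c b) v] else []) else
  if σ = 3 then [Reg.P (pidx c g) g (b + Wd c b)] ++
    (if b + Wd c b < v then [Reg.RT (ep c (b + Wd c b)) (b + Wd c b) v] else []) else
  [Reg.P (pidx c g) g (b + Wd c b)] ++
    (if b + Wd c b < v then [Reg.RTh (ep c (b + Wd c b)) (b + Wd c b) v] else [])

/-- geometry of a cell `[g, v)` with the unit `b` in action -/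
structure CellGeo (c g b v : ℕ) : Prop where
  hg : g ≤ b
  hb : b + Wd c b ≤ v
  db : Wd c b ∣ b
  dg : Wd c b ∣ g
  dv : Wd c b ∣ v
  db' : Wd c (b + Wd c b) ∣ b + Wd c b
  dv' : Wd c (b + Wd c b) ∣ v
  epg : g = 0 ∨ ep c g = ep c b

lemma swapF_famB (T : Finset ℕ) (n : ℕ) : swapF (famB T n) ⊆ famB T n := by
  intro L hL
  obtain ⟨ν, he⟩ := hL
  refine ⟨ν, ?_⟩
  ext p
  have h1 : p ∈ L ↔ p.swap ∈ L.image Prod.swap := by
    rw [mem_image]
    constructor
    · intro hp
      exact ⟨p, hp, rfl⟩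
    · rintro ⟨x, hx, hxe⟩
      rwa [← Prod.swap_injective hxe]
  rw [h1, he, mem_filter, mem_filter, mem_product, mem_product]
  simp only [Prod.fst_swap, Prod.snd_swap]
  rw [add_comm p.2 p.1]
  tauto

lemma swapF_fam0 : swapF fam0 ⊆ fam0 := by
  intro L hL
  have he : L.image Prod.swap = {(0, 0)} := hL
  show L = {(0, 0)}
  ext p
  have h1 : p ∈ L ↔ p.swap ∈ L.image Prod.swap := by
    rw [mem_image]
    constructor
    · intro hp
      exact ⟨p, hp, rfl⟩
    · rintro ⟨x, hx, hxe⟩
      rwa [← Prod.swap_injective hxe]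
  rw [h1, he, mem_singleton, mem_singleton]
  constructor
  · intro h
    rw [← Prod.swap_swap p, h]
    rfl
  · intro h
    rw [h]
    rfl

lemma swapF_LF (D : Codes2) (QW QH : ℕ → Set (Finset ℕ)) (s s' : TS)
    (hW : ∀ e e', s = .W e → s' = .W e' → e = e') (hH : ∀ e e', s = .H e → s' = .H e' → e = e') :
    swapF (LF D QW QH s s') ⊆ LF D QW QH s' s := by
  cases s with
  | none =>
    cases s' with
    | none => exact swapF_fam0
    | W e => exact swapF_famR _ _
    | H e => exact swapF_famR _ _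
  | W e =>
    cases s' with
    | none => exact swapF_famL _ _
    | W e' =>
      have := hW e e' rfl rfl
      subst this
      exact swapF_famB _ _
    | H e => exact swapF_fam0
  | H e =>
    cases s' with
    | none => exact swapF_famL _ _
    | W e' => exact swapF_fam0
    | H e' =>
      have := hH e e' rfl rfl
      subst this
      exact swapF_famB _ _

lemma NBw.symm_LF {D : Codes2} {QW QH : ℕ → Set (Finset ℕ)} {s s' : TS} {A A' : List Rg}
    {v B : ℕ} (h : NBw (LF D QW QH s s') A A' v B)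
    (hW : ∀ e e', s = .W e → s' = .W e' → e = e')
    (hH : ∀ e e', s = .H e → s' = .H e' → e = e') :
    NBw (LF D QW QH s' s) A' A v B :=
  h.symm.mono_fam (swapF_LF D QW QH s s' hW hH)

section

variable {C : Codes}

lemma NB_Pl' {p f b μ : ℕ} (h1 : 1 ≤ μ) (hPP : f < b → PB C (Reg.P p f b) (Reg.P p f b) μ) :
    NB ((Pl p f b).map (rgOf C)) ((Pl p f b).map (rgOf C)) b μ :=
  NB_old (ETS.NB_Pl h1 hPP)

lemma above_map {A : List Reg} {v : ℕ} (h : ∀ r ∈ A, v ≤ r.bot) : Above v (A.map (rgOf C)) := by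
  intro r hr
  obtain ⟨s, hs, rfl⟩ := List.mem_map.mp hr
  exact h s hs

end

lemma noT_Pl {p f b : ℕ} : ∀ r ∈ Pl p f b, NoT r := by
  intro r hr
  unfold Pl at hr
  split_ifs at hr
  · rw [List.mem_singleton] at hr
    subst hr
    trivial
  · simp at hr

variable {c e1 μ A : ℕ} {D : Codes2} {QW QH : ℕ → Set (Finset ℕ)}

/-- `Theta` state against the state with the block in the `P` region, all subsets of the block
set -/
lemma cell01 (HC : NearCodes2 c e1 D μ A QW QH) {g b v : ℕ} (h : CellGeo c g b v)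
    (he : e1 ≤ ep c b) :
    NBw (famR (D.T (ep c b)) (QW (ep c b)))
      ((Pl (pidx c g) g b ++ [Reg.RTh (ep c b) b v]).map (rgOf D.toCodes))
      ([Reg.PT (pidx c g) (ep c b) g b, Reg.R (b + Wd c b) v].map (rgOf D.toCodes)) v
      (μ * A) := by
  have hWb : D.W (ep c b) = Wd c b := HC.W _
  have hμ1 : 1 ≤ μ := le_trans (by norm_num) HC.mu
  refine NBw_oneR ?_ ?_ (HC.one _ he).cov ?_
  · intro r hr
    rw [List.mem_append, List.mem_singleton] at hr
    rcases hr with hr | rfl
    · exact noT_Pl r hr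
    · trivial
  · exact ⟨[], _, [_], rfl, by simp, rfl, by simp [NoT]⟩
  · intro T' hT' m hm hq
    have hRS := (HC.one _ he).RS T' hT' m hm hq (v - b) (by rw [hWb]; have := h.hb; omega)
      (by rw [hWb]; exact Nat.dvd_sub h.dv h.db)
    have hb := h.hb
    have hbv : b + (setT D.toCodes (ep c b) T').W (ep c b) ≤ v := by
      rw [setT_W, hWb]; exact hb
    unfold Pl
    split_ifs with hgb
    · have h1 := ETS.NB_ThB (C := setT D.toCodes (ep c b) T') (p := pidx c g) (e := ep c b)
        (f := g) (b := b) (v := v) (μ := μ) (β := A * m) hgb hbv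
        (HC.PP _ _ _ hgb) (fun x hx => HC.res _ _ _ x hx (by omega)) hRS
      rw [setT_W, hWb] at h1
      rw [mul_assoc]
      exact h1
    · have hfb : g = b := by have := h.hg; omega
      subst hfb
      have h1 := ETS.NB_ThB0 (C := setT D.toCodes (ep c g) T') (p := pidx c g) (e := ep c g)
        (b := g) (v := v) (β := A * m) hbv (HC.X0 _) hRS
      rw [setT_W, hWb] at h1
      refine ETS.NB.mono (by simpa using h1) ?_
      rw [mul_assoc]
      exact Nat.le_mul_of_pos_left _ hμ1

/-- the state with the block in the `P` region against the state without block -/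
lemma cell12 (HC : NearCodes2 c e1 D μ A QW QH) {g b v : ℕ} (h : CellGeo c g b v)
    (he : e1 ≤ ep c b) :
    NBw (famL (D.T (ep c b)) (QW (ep c b)))
      ([Reg.PT (pidx c g) (ep c b) g b, Reg.R (b + Wd c b) v].map (rgOf D.toCodes))
      (([Reg.P (pidx c g) g (b + Wd c b)] ++
        (if b + Wd c b < v then [Reg.R (b + Wd c b) v] else [])).map (rgOf D.toCodes)) v
      (μ * A) := by
  have hWb : D.W (ep c b) = Wd c b := HC.W _
  have hμ1 : 1 ≤ μ := le_trans (by norm_num) HC.mu
  have hg := h.hg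
  have hb := h.hb
  refine NBw_oneL ?_ ?_ (HC.one _ he).cov ?_
  · exact ⟨[], _, [_], rfl, by simp, rfl, by simp [NoT]⟩
  · intro r hr
    split_ifs at hr
    · simp only [List.cons_append, List.nil_append, List.mem_cons, List.not_mem_nil,
        or_false] at hr
      rcases hr with rfl | rfl <;> trivial
    · simp only [List.cons_append, List.nil_append, List.mem_cons, List.not_mem_nil,
        or_false] at hr
      subst hr
      trivial
  · intro T' hT' m hm hq
    have hPTP := HC.PTP g b he hg h.db h.dg h.epg T' hT' m hm hq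
    rw [hWb] at hPTP
    have hA : ETS.NB (setT D.toCodes (ep c b) T') [Reg.PT (pidx c g) (ep c b) g b]
        [Reg.P (pidx c g) g (b + Wd c b)] (b + Wd c b) (A * m) := by
      have h1 := ETS.NB_single (C := setT D.toCodes (ep c b) T')
        (r := Reg.PT (pidx c g) (ep c b) g b) (r' := Reg.P (pidx c g) g (b + Wd c b)) rfl
        (by simp only [Reg.top]; rw [setT_W, hWb])
        (by simp only [Reg.bot, Reg.top]; omega) hPTP
      simp only [Reg.top] at h1
      rwa [setT_W, hWb] at h1
    split_ifs with hlt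
    · have hR : ETS.NB (setT D.toCodes (ep c b) T') [Reg.R (b + Wd c b) v]
          [Reg.R (b + Wd c b) v] v μ :=
        ETS.NB_single (C := setT D.toCodes (ep c b) T') (r := Reg.R (b + Wd c b) v)
          (r' := Reg.R (b + Wd c b) v) rfl rfl hb (HC.RR _ _ hlt)
      refine (ETS.NB.append hA hR hb (ETS.above_single le_rfl) (ETS.above_single le_rfl)).mono ?_
      exact le_of_eq (by ring)
    · have hB : ETS.NB (setT D.toCodes (ep c b) T') [Reg.R (b + Wd c b) v] [] v 1 := by
        refine ETS.NB_empty_right ?_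
        have h2 : v - (b + Wd c b) = 0 := by omega
        have h3 := HC.Y0
        simp only [Reg.V, h2]
        exact h3
      refine (ETS.NB.append hA hB hb (ETS.above_single le_rfl) ETS.above_nil).mono ?_
      rw [mul_one, mul_assoc]
      exact Nat.le_mul_of_pos_left _ hμ1

lemma ts_cell0 {g b v : ℕ} : tsR (cellRegs c g b v 0) = .none := by
  unfold tsR cellRegs Pl
  simp only [if_true]
  split_ifs <;> rfl

lemma ts_cell1 {g b v : ℕ} : tsR (cellRegs c g b v 1) = .W (ep c b) := by
  unfold tsR cellRegs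
  simp only [one_ne_zero, if_false, if_true]
  rfl

lemma ts_cell2 {g b v : ℕ} : tsR (cellRegs c g b v 2) = .none := by
  unfold tsR cellRegs
  norm_num
  split_ifs <;> rfl

lemma ts_cell3 {g b v : ℕ} : tsR (cellRegs c g b v 3) =
    if b + Wd c b < v then .W (ep c (b + Wd c b)) else .none := by
  unfold tsR cellRegs
  norm_num
  split_ifs <;> rfl

lemma ts_cell4 {g b v : ℕ} : tsR (cellRegs c g b v 4) = .none := by
  unfold tsR cellRegs
  norm_num
  split_ifs <;> rfl

lemma noBlk_cellRegs {g b v σ : ℕ} (hσ : σ = 0 ∨ σ = 2 ∨ σ = 4) :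
    NoBlk ((cellRegs c g b v σ).map (rgOf D.toCodes)) := by
  refine noBlk_of ?_
  intro r hr
  rcases hσ with rfl | rfl | rfl
  · simp only [cellRegs, if_true, List.mem_append, List.mem_singleton] at hr
    rcases hr with hr | rfl
    · exact noT_Pl r hr
    · trivial
  · simp only [cellRegs] at hr
    norm_num at hr
    rcases hr with rfl | ⟨-, rfl⟩ <;> trivial
  · simp only [cellRegs] at hr
    norm_num at hr
    rcases hr with rfl | ⟨-, rfl⟩ <;> trivial

/-- **near bound for one cell of T* in action** -/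
theorem NBw_cell (HC : NearCodes2 c e1 D μ A QW QH) {g b v σ σ' : ℕ}
    (h : CellGeo c g b v) (hσ : σ ≤ 4) (hσ' : σ' ≤ 4)
    (hadj : σ = σ' ∨ σ = σ' + 1 ∨ σ' = σ + 1) (he : e1 ≤ ep c b)
    (he' : e1 ≤ ep c (b + Wd c b)) :
    NBw (LF D QW QH (tsR (cellRegs c g b v σ)) (tsR (cellRegs c g b v σ')))
      ((cellRegs c g b v σ).map (rgOf D.toCodes)) ((cellRegs c g b v σ').map (rgOf D.toCodes)) v
      (μ * μ * A) := by
  have hg := h.hg
  have hb := h.hb
  have hWb : D.W (ep c b) = Wd c b := HC.W _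
  have hWb' : D.W (ep c (b + Wd c b)) = Wd c (b + Wd c b) := HC.W _
  have h1 : 1 ≤ μ := le_trans (by norm_num) HC.mu
  have hA1 : 1 ≤ A := HC.oneA
  have hW : 0 < Wd c b := by rw [← hWb, HC.W]; unfold CC; positivity
  have hdvb : D.W (ep c b) ∣ v - b := by rw [hWb]; exact Nat.dvd_sub h.dv h.db
  have hdvb' : D.W (ep c (b + Wd c b)) ∣ v - (b + Wd c b) := by
    rw [hWb']; exact Nat.dvd_sub h.dv' h.db'
  have hlt : b + Wd c b < v → b + Wd c b + D.W (ep c (b + Wd c b)) ≤ v := by
    intro h2
    have := Nat.le_of_dvd (by omega) hdvb'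
    omega
  have m1 : μ ≤ μ * μ := by nlinarith
  have m2 : 1 ≤ μ * μ := by nlinarith
  have mA : μ ≤ μ * A := Nat.le_mul_of_pos_right _ hA1
  have mAA : μ * A ≤ μ * μ * A := Nat.mul_le_mul_right _ m1
  have hPb : NB ((Pl (pidx c g) g b).map (rgOf D.toCodes)) ((Pl (pidx c g) g b).map (rgOf D.toCodes))
      b μ := NB_Pl' h1 (fun h => HC.PP _ _ _ h)
  have hPb' : NB [rgOf D.toCodes (Reg.P (pidx c g) g (b + Wd c b))]
      [rgOf D.toCodes (Reg.P (pidx c g) g (b + Wd c b))] (b + Wd c b) μ :=
    NB_old (A := [Reg.P (pidx c g) g (b + Wd c b)]) (A' := [Reg.P (pidx c g) g (b + Wd c b)])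
      (ETS.NB_single (r := Reg.P (pidx c g) g (b + Wd c b)) rfl rfl
        (by simp only [Reg.bot, Reg.top]; omega) (HC.PP _ _ _ (by omega)))
  -- upper part `[b + W, v)` without block
  have hup : ∀ (r : Reg), r.bot = b + Wd c b → r.top D.toCodes = v →
      (b + Wd c b < v → PB D.toCodes r r (μ * A)) →
      NB (([Reg.P (pidx c g) g (b + Wd c b)] ++ (if b + Wd c b < v then [r] else [])).map
          (rgOf D.toCodes))
        (([Reg.P (pidx c g) g (b + Wd c b)] ++ (if b + Wd c b < v then [r] else [])).map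
          (rgOf D.toCodes)) v (μ * (μ * A)) := by
    intro r e1' e3' hPBr
    rw [List.map_append]
    by_cases h2 : b + Wd c b < v
    · rw [if_pos h2]
      refine NB.append hPb' ?_ hb (above_map (by simp [e1'])) (above_map (by simp [e1']))
      have := NB_single (r := rgOf D.toCodes r) (r' := rgOf D.toCodes r) rfl rfl
        (by show r.bot ≤ r.top D.toCodes; rw [e1', e3']; exact hb) (PBr_old (hPBr h2))
      have e4 : (rgOf D.toCodes r).top = v := e3'
      rwa [e4] at this
    · rw [if_neg h2]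
      exact (NB.append hPb' (NB_nil (v := v)) hb above_nil above_nil).mono
        (Nat.mul_le_mul_left _ (by nlinarith))
  -- upper part with block on at least one side
  have hupw : ∀ (LF' : Set (Finset (ℕ × ℕ))) (r r' : Reg), r.bot = b + Wd c b →
      r'.bot = b + Wd c b → NBw LF' [rgOf D.toCodes r] [rgOf D.toCodes r'] v (μ * A) →
      b + Wd c b < v →
      NBw LF'
        (([Reg.P (pidx c g) g (b + Wd c b)] ++ (if b + Wd c b < v then [r] else [])).map
          (rgOf D.toCodes))
        (([Reg.P (pidx c g) g (b + Wd c b)] ++ (if b + Wd c b < v then [r'] else [])).map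
          (rgOf D.toCodes)) v (μ * (μ * A)) := by
    intro LF' r r' e1' e2' hNB h2
    rw [if_pos h2, if_pos h2, List.map_append, List.map_append]
    exact NBw.append_left hPb' hNB (noBlk_of (by simp [NoT])) (noBlk_of (by simp [NoT])) hb
      (above_map (by simp [e1'])) (above_map (by simp [e2']))
  have hmul : μ * (μ * A) = μ * μ * A := by ring
  have key : ∀ σ σ' : ℕ, σ ≤ 4 → σ' ≤ 4 → (σ' = σ ∨ σ' = σ + 1) →
      NBw (LF D QW QH (tsR (cellRegs c g b v σ)) (tsR (cellRegs c g b v σ')))
        ((cellRegs c g b v σ).map (rgOf D.toCodes)) ((cellRegs c g b v σ').map (rgOf D.toCodes))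
        v (μ * μ * A) := by
    intro σ σ' hσ hσ' hadj
    obtain ⟨rfl, rfl⟩ | ⟨rfl, rfl⟩ | ⟨rfl, rfl⟩ | ⟨rfl, rfl⟩ | ⟨rfl, rfl⟩ | ⟨rfl, rfl⟩ |
      ⟨rfl, rfl⟩ | ⟨rfl, rfl⟩ | ⟨rfl, rfl⟩ : (σ = 0 ∧ σ' = 0) ∨ (σ = 1 ∧ σ' = 1) ∨
      (σ = 2 ∧ σ' = 2) ∨ (σ = 3 ∧ σ' = 3) ∨ (σ = 4 ∧ σ' = 4) ∨ (σ = 0 ∧ σ' = 1) ∨
      (σ = 1 ∧ σ' = 2) ∨ (σ = 2 ∧ σ' = 3) ∨ (σ = 3 ∧ σ' = 4) := by omega
    · -- (0,0)
      rw [ts_cell0]
      refine NB.toNBw ?_ (noBlk_cellRegs (by omega)) (noBlk_cellRegs (by omega)) mem_fam0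
      simp only [cellRegs, if_true, List.map_append]
      have h2 := HC.ThTh _ _ _ he (by rw [hWb]; exact hb) hdvb
      have h3 := NB_single (r := rgOf D.toCodes (Reg.RTh (ep c b) b v)) rfl rfl
        (by show b ≤ v; omega) (PBr_old h2)
      have h4 : NB [rgOf D.toCodes (Reg.RTh (ep c b) b v)] [rgOf D.toCodes (Reg.RTh (ep c b) b v)]
        v μ := h3
      exact (NB.append hPb h4 (by omega) (above_single le_rfl) (above_single le_rfl)).mono
        (by nlinarith)
    · -- (1,1)
      rw [ts_cell1]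
      simp only [cellRegs, one_ne_zero, if_false, if_true]
      have h2 : NBw (famB (D.T (ep c b)) (D.W (ep c b)))
          [rgOf D.toCodes (Reg.PT (pidx c g) (ep c b) g b)]
          [rgOf D.toCodes (Reg.PT (pidx c g) (ep c b) g b)] (b + Wd c b) A := by
        have h3 := NBw_single (r := rgOf D.toCodes (Reg.PT (pidx c g) (ep c b) g b)) rfl rfl
          (by show g ≤ b + D.W _; omega) (HC.PTPT g b he hg h.db h.dg h.epg)
        have e4 : (rgOf D.toCodes (Reg.PT (pidx c g) (ep c b) g b)).top = b + Wd c b := by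
          show b + D.W (ep c b) = _
          rw [hWb]
        rwa [e4] at h3
      have h3 : NB [rgOf D.toCodes (Reg.R (b + Wd c b) v)] [rgOf D.toCodes (Reg.R (b + Wd c b) v)]
          v μ :=
        NB_old (A := [Reg.R (b + Wd c b) v]) (A' := [Reg.R (b + Wd c b) v])
          (ETS.NB_R_same hb h1 HC.Y0 (fun h => HC.RR _ _ h))
      have h4 := NBw.append_right h2 h3 (noBlk_of (A := [Reg.R (b + Wd c b) v]) (by simp [NoT]))
        (noBlk_of (A := [Reg.R (b + Wd c b) v]) (by simp [NoT])) hb
        (above_single le_rfl) (above_single le_rfl)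
      exact h4.mono (by rw [mul_comm]; exact mAA)
    · -- (2,2)
      rw [ts_cell2]
      refine NB.toNBw ?_ (noBlk_cellRegs (by omega)) (noBlk_cellRegs (by omega)) mem_fam0
      rw [← hmul]
      exact hup (Reg.R (b + Wd c b) v) rfl rfl (fun h2 => (HC.RR _ _ h2).mono mA)
    · -- (3,3)
      rw [ts_cell3]
      by_cases h2 : b + Wd c b < v
      · rw [if_pos h2, ← hmul]
        refine hupw _ (Reg.RT (ep c (b + Wd c b)) (b + Wd c b) v)
          (Reg.RT (ep c (b + Wd c b)) (b + Wd c b) v) rfl rfl ?_ h2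
        exact (NBw_single (r := rgOf D.toCodes (Reg.RT (ep c (b + Wd c b)) (b + Wd c b) v)) rfl rfl
          hb (HC.RTRT _ _ _ he' (hlt h2) hdvb')).mono (Nat.le_mul_of_pos_left _ h1)
      · rw [if_neg h2]
        have e3 : cellRegs c g b v 3 = cellRegs c g b v 2 := by
          simp only [cellRegs]
          norm_num
          rw [if_neg h2, if_neg h2]
        rw [e3]
        refine NB.toNBw ?_ (noBlk_cellRegs (by omega)) (noBlk_cellRegs (by omega)) mem_fam0
        rw [← hmul]
        exact hup (Reg.R (b + Wd c b) v) rfl rfl (fun h2 => (HC.RR _ _ h2).mono mA)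
    · -- (4,4)
      rw [ts_cell4]
      refine NB.toNBw ?_ (noBlk_cellRegs (by omega)) (noBlk_cellRegs (by omega)) mem_fam0
      rw [← hmul]
      exact hup (Reg.RTh (ep c (b + Wd c b)) (b + Wd c b) v) rfl rfl (fun h2 =>
        (HC.ThTh _ _ _ he' (hlt h2) hdvb').mono mA)
    · -- (0,1)
      rw [ts_cell0, ts_cell1]
      simp only [cellRegs, one_ne_zero, if_false, if_true]
      exact (cell01 HC h he).mono mAA
    · -- (1,2)
      rw [ts_cell1, ts_cell2]
      simp only [cellRegs, one_ne_zero, if_false, if_true]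
      exact (cell12 HC h he).mono mAA
    · -- (2,3)
      rw [ts_cell2, ts_cell3]
      by_cases h2 : b + Wd c b < v
      · rw [if_pos h2, ← hmul]
        refine hupw _ (Reg.R (b + Wd c b) v)
          (Reg.RT (ep c (b + Wd c b)) (b + Wd c b) v) rfl rfl ?_ h2
        refine (NBw_oneR (A := [Reg.R (b + Wd c b) v])
          (A' := [Reg.RT (ep c (b + Wd c b)) (b + Wd c b) v]) (B := A) (by simp [NoT])
          ⟨[], _, [], rfl, by simp, rfl, by simp⟩ (HC.one _ he').cov ?_).mono
          (Nat.le_mul_of_pos_left _ h1)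
        intro T' hT' m hm hq
        exact ETS.NB_single (C := setT D.toCodes _ T') (r := Reg.R (b + Wd c b) v)
          (r' := Reg.RT (ep c (b + Wd c b)) (b + Wd c b) v) rfl rfl hb
          ((HC.one _ he').RRT T' hT' m hm hq _ _ (hlt h2) hdvb')
      · rw [if_neg h2]
        have e3 : cellRegs c g b v 3 = cellRegs c g b v 2 := by
          simp only [cellRegs]
          norm_num
          rw [if_neg h2, if_neg h2]
        rw [e3]
        refine NB.toNBw ?_ (noBlk_cellRegs (by omega)) (noBlk_cellRegs (by omega)) mem_fam0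
        rw [← hmul]
        exact hup (Reg.R (b + Wd c b) v) rfl rfl (fun h2 => (HC.RR _ _ h2).mono mA)
    · -- (3,4)
      rw [ts_cell3, ts_cell4]
      by_cases h2 : b + Wd c b < v
      · rw [if_pos h2, ← hmul]
        refine hupw _ (Reg.RT (ep c (b + Wd c b)) (b + Wd c b) v)
          (Reg.RTh (ep c (b + Wd c b)) (b + Wd c b) v) rfl rfl ?_ h2
        refine (NBw_oneL (A := [Reg.RT (ep c (b + Wd c b)) (b + Wd c b) v])
          (A' := [Reg.RTh (ep c (b + Wd c b)) (b + Wd c b) v]) (B := A)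
          ⟨[], _, [], rfl, by simp, rfl, by simp⟩ (by simp [NoT]) (HC.one _ he').cov ?_).mono
          (Nat.le_mul_of_pos_left _ h1)
        intro T' hT' m hm hq
        exact ETS.NB_single (C := setT D.toCodes _ T')
          (r := Reg.RT (ep c (b + Wd c b)) (b + Wd c b) v)
          (r' := Reg.RTh (ep c (b + Wd c b)) (b + Wd c b) v) rfl rfl hb
          ((HC.one _ he').RTRTh T' hT' m hm hq _ _ (hlt h2) hdvb')
      · rw [if_neg h2]
        have e3 : cellRegs c g b v 3 = cellRegs c g b v 4 := by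
          simp only [cellRegs]
          norm_num
          rw [if_neg h2, if_neg h2]
        rw [e3]
        refine NB.toNBw ?_ (noBlk_cellRegs (by omega)) (noBlk_cellRegs (by omega)) mem_fam0
        rw [← hmul]
        exact hup (Reg.RTh (ep c (b + Wd c b)) (b + Wd c b) v) rfl rfl (fun h3 =>
          absurd h3 h2)
  rcases hadj with hadj | hadj | hadj
  · exact key σ σ' hσ hσ' (Or.inl hadj.symm)
  · refine NBw.symm_LF (key σ' σ hσ' hσ (Or.inr hadj)) ?_ ?_
    · intro e e' h3 h4
      obtain rfl | rfl | rfl | rfl : σ' = 0 ∨ σ' = 1 ∨ σ' = 2 ∨ σ' = 3 := by omega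
      · rw [ts_cell0] at h3; cases h3
      · subst hadj
        rw [ts_cell2] at h4; cases h4
      · rw [ts_cell2] at h3; cases h3
      · subst hadj
        rw [ts_cell4] at h4; cases h4
    · intro e e' h3 h4
      obtain rfl | rfl | rfl | rfl : σ' = 0 ∨ σ' = 1 ∨ σ' = 2 ∨ σ' = 3 := by omega
      · rw [ts_cell0] at h3; cases h3
      · subst hadj
        rw [ts_cell2] at h4; cases h4
      · rw [ts_cell2] at h3; cases h3
      · subst hadj
        rw [ts_cell4] at h4; cases h4
  · exact key σ σ' hσ hσ' (Or.inr hadj)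

end Pool.Agent.E2
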