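import Mathlib
import Pool.Agent.Helper16.E2.Body

/-!
# E-T (MP_12a1af_nt), phase 2: the near lemma below a cut
-/

open Finset

namespace Pool.Agent.E2

open Pool.Agent.ETS (Codes Reg IsRest runs IsRun IsCut runs_of_le runs_of_lt rend lt_rend rend_le
  rend_eq isRun_of_mem' runs_split' runs_const runs_congr' PB Pl)
open Pool.Agent.Helper29.ETK (Kid CC)
open Pool.Agent.Helper29.E2 (Kid2 kid kid2 kidU kidB ep Wd Hd Ld hh ll av wb zb un mb sb KidOK KCut
  KidSize TopOK Rest2 rank2 fb epo CellAt cellKid UnitAt BlockAt unitKid blockKid)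

variable {c t : ℕ} {D : Codes2}

/-- exponent of the pair constant of a region -/
def kw (c : ℕ) : Reg2 → ℕ
  | .C1 e _ => hh c e / ll c e
  | .C2 e _ => CC c ^ e / hh c e
  | _ => 1

/-- sum of the exponents -/
def kws (c : ℕ) (A : List Reg2) : ℕ := (A.map (kw c)).sum

lemma kws_append (A B : List Reg2) : kws c (A ++ B) = kws c A + kws c B := by
  unfold kws
  rw [List.map_append, List.sum_append]

lemma kws_nil : kws c [] = 0 := rfl

/-- all regions of the list satisfy the pair bound with themselves -/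
def GoodRest2 (D : Codes2) (c μ : ℕ) (A : List Reg2) : Prop :=
  ∀ r ∈ A, (r.rg D).bot ≤ (r.rg D).top ∧ PBr (r.rg D) (r.rg D) (μ ^ kw c r)

lemma NB_rest2 {μ : ℕ} : ∀ {A : List Reg2} {u v : ℕ}, Chain u (A.map (Reg2.rg D)) v →
    GoodRest2 D c μ A → NB (A.map (Reg2.rg D)) (A.map (Reg2.rg D)) v (μ ^ kws c A)
  | [], u, v, _, _ => by simpa [kws] using NB_nil
  | r :: A, u, v, hc, hA => by
    obtain ⟨h1, h2, h3⟩ := hc
    have ih := NB_rest2 h3 (fun s hs => hA s (List.mem_cons_of_mem _ hs))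
    have h4 : NB [r.rg D] [r.rg D] (r.rg D).top (μ ^ kw c r) :=
      NB_single rfl rfl (hA r List.mem_cons_self).1 (hA r List.mem_cons_self).2
    have h5 := NB.append h4 ih h3.le h3.above h3.above
    have h6 : kws c (r :: A) = kw c r + kws c A := by
      unfold kws
      rw [List.map_cons, List.sum_cons]
    rw [h6, pow_add]
    exact h5

lemma e1_le {e1 s : ℕ} (h1 : CC c ^ (2 * e1 + 4) ≤ t) (h2 : t ≤ CC c ^ 4 * s) (hc : 1 ≤ c) :
    e1 ≤ ep c s := by
  have hC : 2 ≤ CC c := by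
    unfold CC
    calc 2 = 2 ^ 1 := rfl
      _ ≤ 2 ^ c := Nat.pow_le_pow_right (by norm_num) hc
  have h3 : CC c ^ (2 * e1) ≤ s := by
    have : CC c ^ 4 * CC c ^ (2 * e1) ≤ CC c ^ 4 * s := by
      rw [← pow_add]
      calc CC c ^ (4 + 2 * e1) = CC c ^ (2 * e1 + 4) := by ring_nf
        _ ≤ t := h1
        _ ≤ _ := h2
    exact Nat.le_of_mul_le_mul_left this (by positivity)
  have hs : s ≠ 0 := by
    have : 0 < CC c ^ (2 * e1) := by positivity
    omega
  unfold ep Helper29.ETK.lg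
  have h4 : 2 * e1 ≤ Nat.log (CC c) s := Nat.le_log_of_pow_le (by omega) h3
  omega

/-- what is assumed at one time -/
structure At (c e1 t : ℕ) : Prop where
  c1 : 1 ≤ c
  ok : KidOK c t
  size : KidSize c t
  top : TopOK c t
  big : CC c ^ (2 * e1 + 4) ≤ t
  epo : e1 ≤ epo c t

variable {e1 μ A : ℕ} {QW QH : ℕ → Set (Finset ℕ)}

lemma NearCodes2.len (HC : NearCodes2 c e1 D μ A QW QH) : Len c e1 D := ⟨HC.W, HC.H, HC.L⟩

/-- the regions of the rest runs satisfy the bounds -/
lemma good_rest (HC : NearCodes2 c e1 D μ A QW QH) (Ht : At c e1 t) {w : ℕ}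
    (hw : GoodCut2 c t w) {q : Kid2 × ℕ × ℕ} (hr : IsRun (kid2 c t) 0 w q) (hq : Rest2 q.1) :
    GoodRest2 D c μ (toRegs2 c t q) := by
  have hz := zb_le Ht.top
  have hwz := hw.1
  obtain ⟨k, s, e⟩ := q
  cases k with
  | old k =>
    obtain ⟨h1, h2⟩ := isRun_old hr
    have hw' := hw.old Ht.top.wbz
    have hr' := h2
    obtain ⟨-, h2', h3, h4, h5, -⟩ := hr'
    simp only at h2' h3 h4 h5
    have hwt := hw'.1
    intro r hr2
    simp only [toRegs2, List.mem_map] at hr2
    obtain ⟨r, hr2, rfl⟩ := hr2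
    cases k with
    | P g =>
      have := run_P Ht.ok hwt h2
      subst this
      simp only [toRegs, List.mem_singleton] at hr2
      subst hr2
      refine ⟨h2'.le, ?_⟩
      have := HC.PP (pidx c s) s e h2'
      exact (pow_one μ).symm ▸ PBr_old this
    | PT g b => exact absurd hq (by simp [Rest2, IsRest])
    | R v => exact absurd hq (by simp [Rest2, IsRest])
    | RT v => exact absurd hq (by simp [Rest2, IsRest])
    | RTh v =>
      have h6 := cut_RTh Ht.ok hw' (by omega) (h4 s le_rfl h2')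
      have := run_RTh Ht.ok hwt h2 h6
      subst this
      simp only [toRegs, List.mem_singleton] at hr2
      subst hr2
      have hk := h4 s le_rfl h2'
      have hcut : KCut c t s := by
        rcases h5 with h5 | h5
        · exact Or.inl h5
        · exact Or.inr (Or.inr (by rw [hk]; exact h5))
      have hs0 : 0 < s := by
        rcases Nat.eq_zero_or_pos s with h0 | h0
        · rw [h0] at hk
          exact absurd hk (Ht.size.z e).1
        · exact h0
      obtain ⟨d1, d2⟩ := Ht.size.RTh e s (by omega) hk hcut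
      have he : e1 ≤ ep c s := e1_le Ht.big (Ht.size.low s hs0 (by omega) hcut) Ht.c1
      have hWs : D.W (ep c s) = Wd c s := HC.W _
      have hd : D.W (ep c s) ∣ e - s := by rw [hWs]; exact Nat.dvd_sub d2 d1
      refine ⟨h2'.le, ?_⟩
      have hle := Nat.le_of_dvd (by omega) hd
      have := HC.ThTh (ep c s) s e he (by omega) hd
      exact (pow_one μ).symm ▸ PBr_old this
  | T2 b => exact absurd hq (by simp [Rest2])
  | T1 f => exact absurd hq (by simp [Rest2])
  | C2 b =>
    obtain ⟨rfl, rfl, h1, h2⟩ := run_C2 Ht.top hw hr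
    intro r hr2
    simp only [toRegs2, List.mem_singleton] at hr2
    subst hr2
    exact ⟨Nat.le_add_right _ _, HC.C2 _ _ (ep_top Ht.top Ht.epo (by omega) (by omega))⟩
  | mid f =>
    obtain ⟨rfl, rfl, h1, h2⟩ := run_mid Ht.top hw hr
    intro r hr2
    simp only [toRegs2, List.mem_singleton] at hr2
    subst hr2
    refine ⟨Nat.le_add_right _ _, ?_⟩
    have := HC.mid (ep c s) s (ep_top Ht.top Ht.epo (by omega) (by omega))
    simpa [kw] using this
  | C1 f =>
    obtain ⟨rfl, rfl, h1, h2⟩ := run_C1 Ht.top hw hr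
    intro r hr2
    simp only [toRegs2, List.mem_singleton] at hr2
    subst hr2
    exact ⟨Nat.le_add_right _ _, HC.C1 _ _ (ep_top Ht.top Ht.epo (by omega) (by omega))⟩
  | cell p =>
    obtain ⟨rfl, rfl, h1, h2⟩ := run_cell Ht.top hw hr
    intro r hr2
    simp only [toRegs2, List.mem_singleton] at hr2
    subst hr2
    refine ⟨Nat.le_add_right _ _, ?_⟩
    have := HC.cell (ep c s) s (ep_top Ht.top Ht.epo (by omega) (by omega))
    simpa [kw, Helper29.E2.Ld] using this

/-- the regions of the rest runs have no blocks and do not depend on the time -/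
lemma noT_rest {q : Kid2 × ℕ × ℕ} (hq : Rest2 q.1) : NoTL (toRegs2 c t q) := by
  obtain ⟨k, s, e⟩ := q
  cases k with
  | old k =>
    cases k with
    | P g =>
      intro r hr
      simp only [toRegs2, toRegs, List.map_cons, List.map_nil, List.mem_singleton] at hr
      subst hr; rfl
    | PT g b => exact absurd hq (by simp [Rest2, IsRest])
    | R v => exact absurd hq (by simp [Rest2, IsRest])
    | RT v => exact absurd hq (by simp [Rest2, IsRest])
    | RTh v =>
      intro r hr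
      simp only [toRegs2, toRegs, List.map_cons, List.map_nil, List.mem_singleton] at hr
      subst hr; rfl
  | T2 b => exact absurd hq (by simp [Rest2])
  | T1 f => exact absurd hq (by simp [Rest2])
  | C2 b =>
    intro r hr
    simp only [toRegs2, List.mem_singleton] at hr
    subst hr; rfl
  | mid f =>
    intro r hr
    simp only [toRegs2, List.mem_singleton] at hr
    subst hr; rfl
  | C1 f =>
    intro r hr
    simp only [toRegs2, List.mem_singleton] at hr
    subst hr; rfl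
  | cell p =>
    intro r hr
    simp only [toRegs2, List.mem_singleton] at hr
    subst hr; rfl

lemma toRegs2_rest {t' : ℕ} {q : Kid2 × ℕ × ℕ} (hq : Rest2 q.1) :
    toRegs2 c t q = toRegs2 c t' q := by
  obtain ⟨k, s, e⟩ := q
  cases k with
  | old k =>
    cases k with
    | P g => rfl
    | PT g b => exact absurd hq (by simp [Rest2, IsRest])
    | R v => exact absurd hq (by simp [Rest2, IsRest])
    | RT v => exact absurd hq (by simp [Rest2, IsRest])
    | RTh v => rfl
  | _ => rfl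

lemma rest_eq {K K' u m : ℕ}
    (h : ∀ s, u ≤ s → s < m → kid2 c K s = kid2 c K' s ∧ Rest2 (kid2 c K' s)) :
    bodyTo c K u m = bodyTo c K' u m := by
  unfold bodyTo
  rw [runs_congr' _ (fun s h1 h2 => (h s h1 h2).1)]
  apply List.flatMap_congr
  intro q hq
  obtain ⟨h1, h2, h3, h4, -⟩ := isRun_of_mem' _ hq
  refine toRegs2_rest ?_
  rw [← h4 q.2.1 le_rfl h2]
  exact (h _ h1 (by omega)).2

lemma rest_noT {u m : ℕ} (h : ∀ s, u ≤ s → s < m → Rest2 (kid2 c t s)) :
    NoTL (bodyTo c t u m) := by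
  intro r hr
  unfold bodyTo at hr
  rw [List.mem_flatMap] at hr
  obtain ⟨q, hq, hr⟩ := hr
  obtain ⟨h1, h2, h3, h4, -⟩ := isRun_of_mem' _ hq
  refine noT_rest (c := c) (t := t) (q := q) ?_ r hr
  rw [← h4 q.2.1 le_rfl h2]
  exact h _ h1 (by omega)

lemma rest_NB (HC : NearCodes2 c e1 D μ A QW QH) (Ht : At c e1 t) {u m w : ℕ}
    (hw : GoodCut2 c t w) (hum : u ≤ m) (hm : m ≤ w) (h1 : IsCut (kid2 c t) 0 w u)
    (h2 : IsCut (kid2 c t) u w m) (h : ∀ s, u ≤ s → s < m → Rest2 (kid2 c t s)) :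
    NB ((bodyTo c t u m).map (Reg2.rg D)) ((bodyTo c t u m).map (Reg2.rg D)) m
      (μ ^ kws c (bodyTo c t u m)) := by
  have hmem : ∀ q ∈ runs (kid2 c t) m u, q ∈ runs (kid2 c t) w 0 :=
    fun q hq => mem_runs_of_cuts hum hm h1 h2 hq
  refine NB_rest2 (u := u) ?_ ?_
  · unfold bodyTo
    rw [List.map_flatMap]
    refine chain_flatMap _ u m le_rfl hum (fun q hq => ?_)
    exact chain_toRegs2 HC.len Ht.ok Ht.top Ht.epo hw (isRun_of_mem' _ (hmem q hq))
  · intro r hr
    unfold bodyTo at hr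
    rw [List.mem_flatMap] at hr
    obtain ⟨q, hq, hqr⟩ := hr
    refine good_rest HC Ht hw (isRun_of_mem' _ (hmem q hq)) ?_ r hqr
    obtain ⟨h3, h4, h5, h6, -⟩ := isRun_of_mem' _ hq
    rw [← h6 q.2.1 le_rfl h4]
    exact h _ h3 (by omega)

/-! ### the chunk in action -/

/-- the part `[x0, x1)` in action, everything else below `w` at rest and equal -/
structure Act (c K K' w x0 x1 : ℕ) (X X' : List Reg2) : Prop where
  le1 : x0 ≤ x1
  le2 : x1 ≤ w
  w1 : GoodCut2 c K w
  w2 : GoodCut2 c K' w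
  c0 : IsCut (kid2 c K) 0 w x0
  c0' : IsCut (kid2 c K') 0 w x0
  c1 : IsCut (kid2 c K) x0 w x1
  c1' : IsCut (kid2 c K') x0 w x1
  X : bodyTo c K x0 x1 = X
  X' : bodyTo c K' x0 x1 = X'
  out : ∀ s, s < w → (s < x0 ∨ x1 ≤ s) → kid2 c K s = kid2 c K' s ∧ Rest2 (kid2 c K' s)

lemma cut_zero {φ : ℕ → Kid2} {x0 w x1 : ℕ} (h0 : IsCut φ 0 w x0) (h1 : IsCut φ x0 w x1) :
    IsCut φ 0 w x1 := by
  rcases h1 with h1 | h1 | h1
  · rw [h1]; exact h0
  · exact Or.inr (Or.inl h1)
  · exact Or.inr (Or.inr h1)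

lemma Act.split {K K' w x0 x1 : ℕ} {X X' : List Reg2} (h : Act c K K' w x0 x1 X X') :
    bodyTo c K 0 w = bodyTo c K' 0 x0 ++ (X ++ bodyTo c K' x1 w) ∧
    bodyTo c K' 0 w = bodyTo c K' 0 x0 ++ (X' ++ bodyTo c K' x1 w) := by
  have l1 := h.le1
  have l2 := h.le2
  have r1 := rest_eq (c := c) (K := K) (K' := K') (u := 0) (m := x0)
    (fun s _ h2 => h.out s (by omega) (Or.inl h2))
  have r2 := rest_eq (c := c) (K := K) (K' := K') (u := x1) (m := w)
    (fun s h1 h2 => h.out s h2 (Or.inr h1))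
  have hX := h.X
  have hX' := h.X'
  constructor
  · rw [← r1, ← r2, ← hX]
    unfold bodyTo
    rw [runs_split' _ (Nat.zero_le _) (l1.trans l2) h.c0, runs_split' _ l1 l2 h.c1,
      List.flatMap_append, List.flatMap_append]
  · rw [← hX']
    unfold bodyTo
    rw [runs_split' _ (Nat.zero_le _) (l1.trans l2) h.c0', runs_split' _ l1 l2 h.c1',
      List.flatMap_append, List.flatMap_append]

lemma Act.noT1 {K K' w x0 x1 : ℕ} {X X' : List Reg2} (h : Act c K K' w x0 x1 X X') :
    NoTL (bodyTo c K' 0 x0) := by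
  have l1 := h.le1
  have l2 := h.le2
  exact rest_noT (fun s _ h2 => (h.out s (by omega) (Or.inl h2)).2)

lemma Act.noT2 {K K' w x0 x1 : ℕ} {X X' : List Reg2} (h : Act c K K' w x0 x1 X X') :
    NoTL (bodyTo c K' x1 w) :=
  rest_noT (fun s h1 h2 => (h.out s h2 (Or.inr h1)).2)

lemma tsL_mid {A B X : List Reg2} (hA : NoTL A) (hB : NoTL B) : tsL (A ++ (X ++ B)) = tsL X := by
  rw [tsL_append, if_pos hA.tsL, tsL_append, hB.tsL]
  split_ifs with h
  · exact h.symm
  · rfl

/-- **near bound below a cut** -/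
theorem Act.NBw {K K' w x0 x1 : ℕ} {X X' : List Reg2} (HC : NearCodes2 c e1 D μ A QW QH)
    (HK : At c e1 K) (HK' : At c e1 K') (h : Act c K K' w x0 x1 X X') {B : ℕ}
    (hB : E2.NBw (LF D QW QH (tsL X) (tsL X')) (X.map (Reg2.rg D)) (X'.map (Reg2.rg D)) x1 B)
    {s s' : TS} (hs : s = tsL X) (hs' : s' = tsL X') :
    E2.NBw (LF D QW QH s s') ((bodyTo c K 0 w).map (Reg2.rg D))
      ((bodyTo c K' 0 w).map (Reg2.rg D)) w
      (μ ^ (kws c (bodyTo c K' 0 x0) + kws c (bodyTo c K' x1 w)) * B) := by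
  have l1 := h.le1
  have l2 := h.le2
  obtain ⟨s1, s2⟩ := h.split
  have n1 := rest_NB (u := 0) (m := x0) HC HK' h.w2 (Nat.zero_le _) (l1.trans l2) (Or.inl rfl) (by
    rcases h.c0' with h1 | h1 | h1
    · exact Or.inl h1
    · exact Or.inr (Or.inl h1)
    · exact Or.inr (Or.inr h1)) (fun s _ h2 => (h.out s (by omega) (Or.inl h2)).2)
  have n2 := rest_NB (u := x1) (m := w) HC HK' h.w2 l2 le_rfl (cut_zero h.c0' h.c1')
    (Or.inr (Or.inl rfl)) (fun s h1 h2 => (h.out s h2 (Or.inr h1)).2)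
  have hZ := (chain_bodyTo HC.len HK'.ok HK'.top HK'.epo l2 h.w2 (cut_zero h.c0' h.c1')).above
  have hXa : Above x0 (X.map (Reg2.rg D)) := by
    have h3 : Chain x0 ((bodyTo c K x0 x1).map (Reg2.rg D)) x1 := by
      unfold bodyTo
      rw [List.map_flatMap]
      refine chain_flatMap _ x0 x1 le_rfl l1 (fun q hq => ?_)
      exact chain_toRegs2 HC.len HK.ok HK.top HK.epo h.w1 (isRun_of_mem' _
        (mem_runs_of_cuts l1 l2 h.c0 h.c1 hq))
    rw [h.X] at h3
    exact h3.above
  have hXa' : Above x0 (X'.map (Reg2.rg D)) := by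
    have h3 : Chain x0 ((bodyTo c K' x0 x1).map (Reg2.rg D)) x1 := by
      unfold bodyTo
      rw [List.map_flatMap]
      refine chain_flatMap _ x0 x1 le_rfl l1 (fun q hq => ?_)
      exact chain_toRegs2 HC.len HK'.ok HK'.top HK'.epo h.w2 (isRun_of_mem' _
        (mem_runs_of_cuts l1 l2 h.c0' h.c1' hq))
    rw [h.X'] at h3
    exact h3.above
  rw [s1, s2, hs, hs']
  simp only [List.map_append]
  have n3 := NBw.append_right hB n2 h.noT2.noBlk h.noT2.noBlk l2 hZ hZ
  have n4 := NBw.append_left n1 n3 h.noT1.noBlk h.noT1.noBlk (l1.trans l2)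
    (hXa.append (hZ.mono l1)) (hXa'.append (hZ.mono l1))
  refine n4.mono (le_of_eq ?_)
  rw [pow_add]
  ring

end Pool.Agent.E2
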