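import Mathlib
import Pool.Agent.Helper16.E2.Wt
import Pool.Agent.Helper84.E2.TopDefs

/-!
# E-T (MP_12a1af_nt), phase 2: the lower part, Omega, the common cells and the top
-/

open Finset

namespace Pool.Agent.E2

open Pool.Agent.ETS (Hash exists_modEq_shift modEq_sub_of_mul)

/-- decomposition of a count of numbers -/
lemma cnt_append_le {A1 A1' A2 A2' : List Rg} {v : ℕ} (hA : Above v A2) (hA' : Above v A2')
    (h h' : Hash) (ν : ℕ) :
    cnt (A1 ++ A2) (A1' ++ A2') h h' ν ≤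
    ∑ p ∈ (Sol A1 A1' h h' v ν).filter (fun p => val A1 h p.1 + val A1' h' p.2 ≤ ν),
      cnt A2 A2' (nexts A1 h p.1) (nexts A1' h' p.2) (ν - (val A1 h p.1 + val A1' h' p.2)) := by
  classical
  unfold cnt
  rw [card_eq_sum_ones]
  refine (sum_append_le hA hA' h h' ν (fun s => s = ν) (fun s hs => by rw [hs])
    (fun _ => 1)).trans ?_
  rw [sum_filter]
  refine sum_le_sum (fun p _ => ?_)
  rw [← card_eq_sum_ones]
  split_ifs with hle
  · refine card_le_card ?_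
    intro r hr
    rw [mem_filter] at hr ⊢
    exact ⟨hr.1, by omega⟩
  · rw [Finset.filter_false_of_mem]
    · simp
    · intro q _
      omega

/-- the possible blocks and variables of Omega -/
def LamA (Sd : Finset ℕ) (l : ℕ) (H H' : ℕ → ℕ) (L : Finset (ℕ × ℕ)) (μ : ℕ) :
    Finset ((ℕ × ℕ) × (ℕ × ℕ)) :=
  (L ×ˢ (Sd ×ˢ Sd)).filter (fun a =>
    (a.2.1 + a.2.2 + H a.1.1 + H' a.1.2) % 2 ^ l = μ % 2 ^ l)

/-- the possible variables of Omega for given blocks -/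
def LamO (Sd : Finset ℕ) (l : ℕ) (H H' : ℕ → ℕ) (p : ℕ × ℕ) (μ : ℕ) : Finset (ℕ × ℕ) :=
  (Sd ×ˢ Sd).filter (fun q => (q.1 + q.2 + H p.1 + H' p.2) % 2 ^ l = μ % 2 ^ l)

lemma sum_LamA (Sd : Finset ℕ) (l : ℕ) (H H' : ℕ → ℕ) (L : Finset (ℕ × ℕ)) (μ : ℕ)
    (f : ℕ × ℕ → ℕ) :
    ∑ p ∈ L, ∑ q ∈ LamO Sd l H H' p μ, f q = ∑ a ∈ LamA Sd l H H' L μ, f a.2 := by
  unfold LamA LamO
  rw [sum_filter, sum_product]
  refine sum_congr rfl (fun p _ => ?_)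
  rw [sum_filter]

/-- digits of a number which is congruent -/
lemma carry_cases {s ν o : ℕ} (h1 : s ≡ ν [MOD 2 ^ o]) (h2 : s < 2 * 2 ^ o) (h3 : s ≤ ν) :
    ν - s = 2 ^ o * (ν / 2 ^ o) ∨ ν - s = 2 ^ o * (ν / 2 ^ o - 1) := by
  have hp : 0 < 2 ^ o := by positivity
  have e1 := Nat.div_add_mod ν (2 ^ o)
  have e2 := Nat.div_add_mod s (2 ^ o)
  have e3 : s % 2 ^ o = ν % 2 ^ o := h1
  have h4 : s / 2 ^ o < 2 := by
    rw [Nat.div_lt_iff_lt_mul hp]; exact h2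
  obtain h5 | h5 : s / 2 ^ o = 0 ∨ s / 2 ^ o = 1 := by
    generalize s / 2 ^ o = x at h4
    omega
  · left
    rw [h5, mul_zero, zero_add] at e2
    omega
  · right
    rw [h5, mul_one] at e2
    have h6 : 1 ≤ ν / 2 ^ o := by
      rw [Nat.le_div_iff_mul_le hp, one_mul]
      omega
    rw [Nat.mul_sub, mul_one]
    omega

section glue

variable {Lo Lo' Mid U U' : List Rg} {Sd : Finset ℕ} {o l z : ℕ} {H H' S S' : ℕ → ℕ}
  {P P' : Hash → ℕ → Prop}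

/-- the maximal count above the common cells -/
noncomputable def TB (U U' : List Rg) (P P' : Hash → ℕ → Prop) (s s' ν : ℕ) : ℕ :=
  sSup {m | ∃ g g', P g s ∧ P' g' s' ∧ m = cnt U U' g g' ν}

lemma TB_bdd (s s' ν : ℕ) :
    BddAbove {m | ∃ g g', P g s ∧ P' g' s' ∧ m = cnt U U' g g' ν} := by
  refine ⟨(Vs U ×ˢ Vs U').card, ?_⟩
  rintro m ⟨g, g', -, -, rfl⟩
  exact card_filter_le _ _

lemma le_TB {s s' ν : ℕ} {g g' : Hash} (h : P g s) (h' : P' g' s') :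
    cnt U U' g g' ν ≤ TB U U' P P' s s' ν :=
  le_csSup (TB_bdd s s' ν) ⟨g, g', h, h', rfl⟩

lemma TB_attained (hP : ∀ s, ∃ g, P g s) (hP' : ∀ s, ∃ g, P' g s) (s s' ν : ℕ) :
    ∃ g g', P g s ∧ P' g' s' ∧ TB U U' P P' s s' ν = cnt U U' g g' ν := by
  obtain ⟨g, hg⟩ := hP s
  obtain ⟨g', hg'⟩ := hP' s'
  have hne : {m | ∃ g g', P g s ∧ P' g' s' ∧ m = cnt U U' g g' ν}.Nonempty :=
    ⟨_, g, g', hg, hg', rfl⟩
  exact Nat.sSup_mem hne (TB_bdd s s' ν)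

/-- the top count for both carries -/
noncomputable def TB2 (U U' : List Rg) (P P' : Hash → ℕ → Prop) (z ν s s' : ℕ) : ℕ :=
  TB U U' P P' s s' (2 ^ z * (ν / 2 ^ z)) + TB U U' P P' s s' (2 ^ z * (ν / 2 ^ z - 1))

/-- the weight of a pair of blocks -/
noncomputable def wgt (Sd : Finset ℕ) (o l : ℕ) (H H' : ℕ → ℕ) (F : ℕ × ℕ → ℕ) (ν : ℕ)
    (p : ℕ × ℕ) : ℕ :=
  ∑ q ∈ LamO Sd l H H' p (ν / 2 ^ o), F q + ∑ q ∈ LamO Sd l H H' p (ν / 2 ^ o - 1), F q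

/-- the common cells and the top -/
lemma cnt_mid {B3 : ℕ} (hMid : NB Mid Mid z B3) (hU : Above z U) (hU' : Above z U')
    {g g' : Hash} {s s' t ν : ℕ} (ht : t ≤ ν)
    (hlt : ∀ y ∈ Vs Mid, ∀ y' ∈ Vs Mid, t + (val Mid g y + val Mid g' y') < 2 * 2 ^ z)
    (hS : ∀ y ∈ Vs Mid, P (nexts Mid g y) s) (hS' : ∀ y ∈ Vs Mid, P' (nexts Mid g' y) s') :
    cnt (Mid ++ U) (Mid ++ U') g g' (ν - t) ≤ B3 * TB2 U U' P P' z ν s s' := by
  refine (cnt_append_le (v := z) hU hU' _ _ _).trans ?_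
  refine (sum_le_card_nsmul _ _ (TB2 U U' P P' z ν s s') ?_).trans ?_
  · intro y hy
    rw [mem_filter, mem_Sol] at hy
    obtain ⟨⟨⟨hy1, hy2⟩, hy3⟩, hy4⟩ := hy
    have h1 := hlt y.1 hy1 y.2 hy2
    generalize hs3 : val Mid g y.1 + val Mid g' y.2 = s3 at hy3 hy4 h1 ⊢
    have hcong : t + s3 ≡ ν [MOD 2 ^ z] := by
      have h5 : t + s3 ≡ t + (ν - t) [MOD 2 ^ z] := Nat.ModEq.add_left _ hy3
      rwa [show t + (ν - t) = ν by omega] at h5
    have e1 : ν - t - s3 = ν - (t + s3) := by omega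
    rw [e1]
    unfold TB2
    rcases carry_cases hcong h1 (by omega) with h8 | h8
    · rw [h8]
      exact le_trans (le_TB (hS _ hy1) (hS' _ hy2)) (Nat.le_add_right _ _)
    · rw [h8]
      exact le_trans (le_TB (hS _ hy1) (hS' _ hy2)) (Nat.le_add_left _ _)
  · rw [smul_eq_mul]
    exact Nat.mul_le_mul_right _ ((card_filter_le _ _).trans (hMid _ _ _))

lemma val_cell {g : Hash} {ω : ℕ} : val [cellRg o l Sd] g [ω] = 2 ^ o * ((ω + g []) % 2 ^ l) := by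
  have : (cellRg o l Sd).len = l := by
    show o + l - o = l
    omega
  simp only [val, this, add_zero]
  rfl

/-- Omega -/
lemma cnt_omega {A A' : List Rg} (hA : Above (o + l) A) (hA' : Above (o + l) A')
    {g g' : Hash} {p : ℕ × ℕ} (hg : g [] = H p.1) (hg' : g' [] = H' p.2) {n μ : ℕ}
    (hn : n = 2 ^ o * μ) (F : ℕ × ℕ → ℕ)
    (hF : ∀ ω ∈ Sd, ∀ ω' ∈ Sd,
      2 ^ o * ((ω + g []) % 2 ^ l) + 2 ^ o * ((ω' + g' []) % 2 ^ l) ≤ n →
      cnt A A' ((cellRg o l Sd).next g ω) ((cellRg o l Sd).next g' ω')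
        (n - (2 ^ o * ((ω + g []) % 2 ^ l) + 2 ^ o * ((ω' + g' []) % 2 ^ l))) ≤ F (ω, ω')) :
    cnt ([cellRg o l Sd] ++ A) ([cellRg o l Sd] ++ A') g g' n ≤
      ∑ q ∈ LamO Sd l H H' p μ, F q := by
  classical
  refine (cnt_append_le (v := o + l) hA hA' _ _ _).trans ?_
  have hmem : ∀ q ∈ Sol [cellRg o l Sd] [cellRg o l Sd] g g' (o + l) n, ∃ ω ∈ Sd, ∃ ω' ∈ Sd,
      q = ([ω], [ω']) ∧ (ω, ω') ∈ LamO Sd l H H' p μ := by
    intro q hq
    rw [mem_Sol] at hq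
    obtain ⟨⟨hq1, hq2⟩, hq3⟩ := hq
    obtain ⟨ω, e1, hω⟩ := mem_Vs_single.mp hq1
    obtain ⟨ω', e2, hω'⟩ := mem_Vs_single.mp hq2
    refine ⟨ω, hω, ω', hω', Prod.ext e1 e2, ?_⟩
    unfold LamO
    rw [mem_filter, mem_product]
    refine ⟨⟨hω, hω'⟩, ?_⟩
    rw [e1, e2, val_cell, val_cell] at hq3
    have h5 := modEq_sub_of_mul hq3
    rw [hn, Nat.mul_div_cancel_left _ (by positivity), hg, hg'] at h5
    have h6 : ω + ω' + H p.1 + H' p.2 = ω + H p.1 + (ω' + H' p.2) := by ring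
    show (ω + ω' + H p.1 + H' p.2) % 2 ^ l = μ % 2 ^ l
    rw [h6]
    exact h5
  calc ∑ q ∈ (Sol [cellRg o l Sd] [cellRg o l Sd] g g' (o + l) n).filter
        (fun q => val [cellRg o l Sd] g q.1 + val [cellRg o l Sd] g' q.2 ≤ n),
        cnt A A' (nexts [cellRg o l Sd] g q.1) (nexts [cellRg o l Sd] g' q.2)
          (n - (val [cellRg o l Sd] g q.1 + val [cellRg o l Sd] g' q.2))
      ≤ ∑ q ∈ (Sol [cellRg o l Sd] [cellRg o l Sd] g g' (o + l) n).filter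
        (fun q => val [cellRg o l Sd] g q.1 + val [cellRg o l Sd] g' q.2 ≤ n),
        F (q.1.headD 0, q.2.headD 0) := by
        refine sum_le_sum (fun q hq => ?_)
        rw [mem_filter] at hq
        obtain ⟨ω, hω, ω', hω', rfl, -⟩ := hmem q hq.1
        have h1 := hq.2
        simp only [val_cell] at h1 ⊢
        exact hF ω hω ω' hω' h1
    _ ≤ ∑ q ∈ (LamO Sd l H H' p μ).image (fun q => (([q.1] : List ℕ), ([q.2] : List ℕ))),
        F (q.1.headD 0, q.2.headD 0) := by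
        refine sum_le_sum_of_subset ?_
        intro q hq
        rw [mem_filter] at hq
        obtain ⟨ω, hω, ω', hω', rfl, h1⟩ := hmem q hq.1
        exact mem_image.mpr ⟨(ω, ω'), h1, rfl⟩
    _ = ∑ q ∈ LamO Sd l H H' p μ, F q := by
        rw [sum_image]
        · rfl
        · intro a _ b _ hab
          simp only [Prod.mk.injEq, List.cons.injEq, and_true] at hab
          exact Prod.ext hab.1 hab.2

/-- the weights on lists -/
lemma wgt_le {LF' : Set (Finset (ℕ × ℕ))} {B3 BT : ℕ} {U U' : List Rg}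
    (hP : ∀ s, ∃ g, P g s) (hP' : ∀ s, ∃ g, P' g s)
    (hT : ∀ L ∈ LF', ∀ (μ ν : ℕ) (f : (ℕ × ℕ) × (ℕ × ℕ) → ℕ),
      (∀ a ∈ LamA Sd l H H' L μ, ∃ g g' : Hash, P g (S a.2.1) ∧ P' g' (S' a.2.2) ∧
        f a ≤ cnt U U' g g' ν) → ∑ a ∈ LamA Sd l H H' L μ, f a ≤ BT) (ν : ℕ) :
    WtLe LF' (wgt Sd o l H H' (fun q => B3 * TB2 U U' P P' z ν (S q.1) (S' q.2)) ν)
      (4 * B3 * BT) := by
  intro L hL
  have key : ∀ μ n, ∑ p ∈ L, ∑ q ∈ LamO Sd l H H' p μ,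
      TB U U' P P' (S q.1) (S' q.2) n ≤ BT := by
    intro μ n
    rw [sum_LamA Sd l H H' L μ (fun q => TB U U' P P' (S q.1) (S' q.2) n)]
    refine hT L hL μ n (fun a => TB U U' P P' (S a.2.1) (S' a.2.2) n) ?_
    intro a _
    obtain ⟨g, g', h1, h2, h3⟩ := TB_attained (U := U) (U' := U') hP hP' (S a.2.1) (S' a.2.2) n
    exact ⟨g, g', h1, h2, h3.le⟩
  unfold wgt TB2
  simp only [← mul_sum, sum_add_distrib]
  have k1 := key (ν / 2 ^ o) (2 ^ z * (ν / 2 ^ z))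
  have k2 := key (ν / 2 ^ o) (2 ^ z * (ν / 2 ^ z - 1))
  have k3 := key (ν / 2 ^ o - 1) (2 ^ z * (ν / 2 ^ z))
  have k4 := key (ν / 2 ^ o - 1) (2 ^ z * (ν / 2 ^ z - 1))
  generalize (∑ p ∈ L, ∑ q ∈ LamO Sd l H H' p (ν / 2 ^ o),
      TB U U' P P' (S q.1) (S' q.2) (2 ^ z * (ν / 2 ^ z))) = x1 at k1 ⊢
  generalize (∑ p ∈ L, ∑ q ∈ LamO Sd l H H' p (ν / 2 ^ o),
      TB U U' P P' (S q.1) (S' q.2) (2 ^ z * (ν / 2 ^ z - 1))) = x2 at k2 ⊢
  generalize (∑ p ∈ L, ∑ q ∈ LamO Sd l H H' p (ν / 2 ^ o - 1),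
      TB U U' P P' (S q.1) (S' q.2) (2 ^ z * (ν / 2 ^ z))) = x3 at k3 ⊢
  generalize (∑ p ∈ L, ∑ q ∈ LamO Sd l H H' p (ν / 2 ^ o - 1),
      TB U U' P P' (S q.1) (S' q.2) (2 ^ z * (ν / 2 ^ z - 1))) = x4 at k4 ⊢
  calc B3 * (x1 + x2) + B3 * (x3 + x4) = B3 * (x1 + x2 + x3 + x4) := by ring
    _ ≤ B3 * (BT + BT + BT + BT) := Nat.mul_le_mul_left _ (by omega)
    _ = 4 * B3 * BT := by ring

/-- **the glue**: lower part with a weighted bound, Omega, common cells, top with lists -/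
theorem glue_T {LF' : Set (Finset (ℕ × ℕ))} {B1 B3 BT : ℕ}
    (hlow : NBw LF' Lo Lo' o B1) (hLo : Chain 0 Lo o) (hLo' : Chain 0 Lo' o)
    (hMid : NB Mid Mid z B3) (hMc : Chain (o + l) Mid z) (hU : Above z U) (hU' : Above z U')
    (hP : ∀ s, ∃ g, P g s) (hP' : ∀ s, ∃ g, P' g s)
    (hT : ∀ L ∈ LF', ∀ (μ ν : ℕ) (f : (ℕ × ℕ) × (ℕ × ℕ) → ℕ),
      (∀ a ∈ LamA Sd l H H' L μ, ∃ g g' : Hash, P g (S a.2.1) ∧ P' g' (S' a.2.2) ∧
        f a ≤ cnt U U' g g' ν) → ∑ a ∈ LamA Sd l H H' L μ, f a ≤ BT)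
    {h h' : Hash} (hH : ∀ x ∈ Vs Lo, nexts Lo h x [] = H (tau Lo x))
    (hH' : ∀ x ∈ Vs Lo', nexts Lo' h' x [] = H' (tau Lo' x))
    (hS : ∀ x ∈ Vs Lo, ∀ ω ∈ Sd, ∀ y ∈ Vs Mid,
      P (nexts Mid ((cellRg o l Sd).next (nexts Lo h x) ω) y) (S ω))
    (hS' : ∀ x ∈ Vs Lo', ∀ ω ∈ Sd, ∀ y ∈ Vs Mid,
      P' (nexts Mid ((cellRg o l Sd).next (nexts Lo' h' x) ω) y) (S' ω)) (ν : ℕ) :
    cnt (Lo ++ ([cellRg o l Sd] ++ (Mid ++ U))) (Lo' ++ ([cellRg o l Sd] ++ (Mid ++ U'))) h h' ν ≤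
      B1 * lc (4 * B3 * BT) := by
  classical
  have hMz : o + l ≤ z := hMc.le
  have hbot : (cellRg o l Sd).bot = o := rfl
  have hw := wgt_le (o := o) (z := z) (B3 := B3) hP hP' hT ν
  have hab : ∀ V : List Rg, Above z V → Above o ([cellRg o l Sd] ++ (Mid ++ V)) := by
    intro V hV
    refine (above_single (by rw [hbot])).append ((hMc.above.mono ?_).append (hV.mono ?_)) <;>
      omega
  have hab2 : ∀ V : List Rg, Above z V → Above (o + l) (Mid ++ V) := by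
    intro V hV
    exact hMc.above.append (hV.mono (by omega))
  generalize hF : (fun q : ℕ × ℕ => B3 * TB2 U U' P P' z ν (S q.1) (S' q.2)) = F at hw
  have hFq : ∀ q, B3 * TB2 U U' P P' z ν (S q.1) (S' q.2) = F q := fun q => by rw [← hF]
  have hlow' := hlow h h' ν _ _ hw
  refine (cnt_append_le (hab U hU) (hab U' hU') h h' ν).trans (le_trans ?_ hlow')
  clear hlow' hw hlow hP hP' hT
  refine le_trans ?_ (sum_le_sum_of_subset (f := fun q : List ℕ × List ℕ =>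
    wgt Sd o l H H' F ν (tau Lo q.1, tau Lo' q.2)) (filter_subset (fun p : List ℕ × List ℕ =>
      val Lo h p.1 + val Lo' h' p.2 ≤ ν) _))
  refine sum_le_sum ?_
  intro p hp
  rw [mem_filter, mem_Sol] at hp
  obtain ⟨⟨⟨hp1, hp2⟩, hp3⟩, hp4⟩ := hp
  have hv1 := hLo.val_lt (h := h) (z := p.1)
  have hv2 := hLo'.val_lt (h := h') (z := p.2)
  rw [pow_zero] at hv1 hv2
  have main : ∀ μ, ν - (val Lo h p.1 + val Lo' h' p.2) = 2 ^ o * μ →
      cnt ([cellRg o l Sd] ++ (Mid ++ U)) ([cellRg o l Sd] ++ (Mid ++ U')) (nexts Lo h p.1)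
        (nexts Lo' h' p.2) (ν - (val Lo h p.1 + val Lo' h' p.2)) ≤
      ∑ q ∈ LamO Sd l H H' (tau Lo p.1, tau Lo' p.2) μ, F q := by
    intro μ hμ
    refine cnt_omega (hab2 U hU) (hab2 U' hU') (hH _ hp1) (hH' _ hp2) hμ F ?_
    intro ω hω ω' hω' hle
    rw [Nat.sub_sub, ← hFq]
    refine cnt_mid hMid hU hU' (by omega) ?_ (hS _ hp1 ω hω) (hS' _ hp2 ω' hω')
    intro y hy y' hy'
    have c1 : Chain 0 (Lo ++ ([cellRg o l Sd] ++ Mid)) z := by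
      refine hLo.append (Chain.append (v := o + l) ?_ hMc)
      exact ⟨rfl, Nat.le_add_right _ _, rfl⟩
    have c2 : Chain 0 (Lo' ++ ([cellRg o l Sd] ++ Mid)) z := by
      refine hLo'.append (Chain.append (v := o + l) ?_ hMc)
      exact ⟨rfl, Nat.le_add_right _ _, rfl⟩
    have t1 := c1.val_lt (h := h) (z := p.1 ++ ([ω] ++ y))
    have t2 := c2.val_lt (h := h') (z := p.2 ++ ([ω'] ++ y'))
    rw [val_append (length_of_mem_Vs hp1), val_append (by rfl), val_cell, pow_zero] at t1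
    rw [val_append (length_of_mem_Vs hp2), val_append (by rfl), val_cell, pow_zero] at t2
    have e1 : nexts [cellRg o l Sd] (nexts Lo h p.1) [ω] =
      (cellRg o l Sd).next (nexts Lo h p.1) ω := rfl
    have e2 : nexts [cellRg o l Sd] (nexts Lo' h' p.2) [ω'] =
      (cellRg o l Sd).next (nexts Lo' h' p.2) ω' := rfl
    rw [e1] at t1
    rw [e2] at t2
    omega
  unfold wgt
  rcases carry_cases hp3 (by omega) hp4 with hc | hc
  · exact (main _ hc).trans (Nat.le_add_right _ _)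
  · exact (main _ hc).trans (Nat.le_add_left _ _)

end glue

end Pool.Agent.E2
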