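import Mathlib
import Pool.Agent.Helper16.E2.Hash

/-!
# E-T (MP_12a1af_nt), phase 2: the definitions for the near theorem
-/

open Finset

namespace Pool.Agent.E2

open Pool.Agent.ETS (Hash)
open Pool.Agent.Helper29.ETK (CC kk)
open Pool.Agent.Helper29.E2 (ep hh ll Ld zb om gth epo NearK2 NearRest NearCell NearUnit NearBlock
  Wd)

/-- connection of the geometry of the top with the schedule and the codes -/
structure Link (c : ℕ) (D : Codes2) (QW QH : ℕ → Set (Finset ℕ)) (G : Geo) (Δ : ℕ → Dt) :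
    Prop where
  ln : ∀ s, G.ln s = Ld c s
  q : ∀ K, G.K0 ≤ K → G.q K = zb c K
  Sd : G.Sd = D.Sd
  lO : ∀ K, G.K0 ≤ K → G.lO K = Ld c (om c K)
  g : ∀ K, G.g K = gth c K
  isT : ∀ K, G.K0 ≤ K → (G.isT K ↔ tsL (layL c K) ≠ .none)
  LF : ∀ K K', G.Near K K' → (G.isT K ∨ G.isT K') →
    ∀ L ∈ E2.LF D QW QH (tsL (layL c K)) (tsL (layL c K')), L ∈ G.LF K K'
  TK : ∀ K, G.K0 ≤ K → D.TK K = (Δ K).T

/-- the conclusion of the top theorem without lists -/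
def TopZero (G : Geo) (Δ : ℕ → Dt) : Prop :=
  ∀ K K' n, G.Near K K' → G.q K = G.nx^[n] (G.q K') →
    NBt (cl G (G.q K') n ++ [zn G Δ K]) [zn G Δ K'] (1600 * G.A K * G.b K)

/-- the conclusion of the top theorem with lists -/
def TopList (G : Geo) (Δ : ℕ → Dt) : Prop :=
  ∀ K K' n, G.Near K K' → (G.isT K ∨ G.isT K') → G.q K = G.nx^[n] (G.q K') →
    ∀ L ∈ G.LF K K', ∀ (μ ν : ℕ) (f : (ℕ × ℕ) × (ℕ × ℕ) → ℕ),
    (∀ a ∈ Lam G Δ K K' L μ, ∃ h h' : Hash,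
      (∀ y ∈ Vs (cl G (G.q K') n), nexts (cl G (G.q K') n) h y [] = (Δ K).S a.2.1) ∧
      h' [] = (Δ K').S a.2.2 ∧
      f a ≤ cnt (cl G (G.q K') n ++ [zn G Δ K]) [zn G Δ K'] h h' ν) →
    ∑ a ∈ Lam G Δ K K' L μ, f a ≤ 10 ^ 6 * G.A K * G.b K ^ 3

/-- bound of the near theorem: `M` exponent, `A` constant of the codes, `BT` bound of the top -/
def nearB (μ A M E BT : ℕ) : ℕ :=
  μ ^ (M + E) * A * (4 * BT * (Nat.log 2 (4 * μ ^ M * BT) + 1))

end Pool.Agent.E2
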