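import Mathlib
import Pool.Agent.Helper16.E2.NearDefs

/-!
# E-T (MP_12a1af_nt), phase 2: the last region, prescribed hash values in the layout
-/

open Finset

namespace Pool.Agent.E2

open Pool.Agent.ETS (Codes Reg IsRest runs IsRun IsCut runs_of_le runs_of_lt rend lt_rend rend_le
  rend_spec of_lt_rend rend_eq isRun_of_mem' runs_split' runs_const runs_congr' PB Pl Hash)
open Pool.Agent.Helper29.ETK (Kid CC)
open Pool.Agent.Helper29.E2 (Kid2 kid kid2 kidU kidB ep Wd Hd Ld hh ll av wb zb un mb sb KidOK KCut
  KidSize TopOK Rest2 rank2 fb epo CellAt cellKid UnitAt BlockAt unitKid blockKid NearRest NearCell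
  NearUnit NearBlock OmAt NearK2 om gridL)

variable {c t : ℕ} {D : Codes2}

/-- the last run ends at `w` -/
lemma getLast?_runs {α : Type*} [DecidableEq α] {φ : ℕ → α} : ∀ (n u w : ℕ), w - u ≤ n →
    ∀ q, (runs φ w u).getLast? = some q → q.2.2 = w
  | 0, u, w, hn, q, hq => by
    rw [runs_of_le _ (by omega)] at hq
    simp at hq
  | n + 1, u, w, hn, q, hq => by
    rcases lt_or_ge u w with hlt | hge
    · rw [runs_of_lt φ hlt] at hq
      have h3 := lt_rend φ u w
      have h4 := rend_le φ hlt
      rcases Nat.eq_or_lt_of_le h4 with h5 | h5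
      · rw [h5, runs_of_le _ le_rfl] at hq
        simp only [List.getLast?_singleton, Option.some.injEq] at hq
        rw [← hq]
      · rw [List.getLast?_cons_of_ne_nil (by rw [runs_of_lt _ h5]; simp)] at hq
        exact getLast?_runs n _ w (by omega) q hq
    · rw [runs_of_le _ hge] at hq
      simp at hq

lemma toRegs2_ne_nil (q : Kid2 × ℕ × ℕ) : toRegs2 c t q ≠ [] := by
  obtain ⟨k, s, e⟩ := q
  cases k with
  | old k =>
    cases k <;> simp only [toRegs2, toRegs] <;> (try split_ifs) <;> simp
  | _ => simp [toRegs2]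

lemma getLast?_flatMap' {α β : Type*} {f : α → List β} (hf : ∀ a, f a ≠ []) :
    ∀ (l : List α) (x : β), (l.flatMap f).getLast? = some x →
      ∃ a, l.getLast? = some a ∧ (f a).getLast? = some x
  | [], x, h => by simp at h
  | [a], x, h => by
    simp only [List.flatMap_cons, List.flatMap_nil, List.append_nil] at h
    exact ⟨a, rfl, h⟩
  | a :: b :: l, x, h => by
    rw [List.flatMap_cons, List.getLast?_append_of_ne_nil _ (by
      rw [List.flatMap_cons]
      intro h1
      exact hf b (List.append_eq_nil_iff.mp h1).1)] at h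
    obtain ⟨q, hq, hq'⟩ := getLast?_flatMap' hf (b :: l) x h
    exact ⟨q, by rw [List.getLast?_cons_cons]; exact hq, hq'⟩

/-- **the last region below a cut above `wb` is not `PT`** -/
lemma last_core (H : KidOK c t) (T : TopOK c t) {w : ℕ} (hw : GoodCut2 c t w)
    (hwb : wb c t ≤ w) {r : Rg} (hr : ((bodyTo c t 0 w).map (Reg2.rg D)).getLast? = some r) :
    ∀ x, r.blk (r.core x) = r.blk x := by
  rw [List.getLast?_map, Option.map_eq_some_iff] at hr
  obtain ⟨r2, hr2, rfl⟩ := hr
  unfold bodyTo at hr2
  obtain ⟨q, hq, hq'⟩ := getLast?_flatMap' toRegs2_ne_nil _ _ hr2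
  have hqw := getLast?_runs _ 0 w le_rfl q hq
  have hmem : q ∈ runs (kid2 c t) w 0 := List.mem_of_getLast? hq
  have hrun := isRun_of_mem' _ hmem
  obtain ⟨k, s, e⟩ := q
  simp only at hqw
  subst hqw
  cases k with
  | old k =>
    obtain ⟨h1, h2⟩ := isRun_old hrun
    have hew : min e (wb c t) = e := min_eq_left h1
    cases k with
    | PT g b =>
      have h3 := h2
      obtain ⟨-, h4, h5, h6, -, -⟩ := h3
      simp only at h4 h5 h6
      have hcut := cut_PT H (hw.old T.wbz) (by omega) (h6 s le_rfl h4)
      obtain ⟨h7, h8⟩ := run_PT H (by omega) h2 hcut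
      obtain ⟨g1, g2, g3, g4, g5, -⟩ := H.PT s g b (by omega) (h6 s le_rfl h4)
      have hav : av c t = b + Wd c b := by omega
      simp only [toRegs2, toRegs] at hq'
      rw [if_pos hav] at hq'
      simp only [List.map_cons, List.map_nil, List.getLast?_cons_cons, List.getLast?_singleton,
        Option.some.injEq] at hq'
      subst hq'
      intro x; rfl
    | _ =>
      simp only [toRegs2, toRegs, List.map_cons, List.map_nil, List.getLast?_singleton,
        Option.some.injEq] at hq'
      subst hq'
      intro x; rfl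
  | _ =>
    simp only [toRegs2, List.getLast?_singleton, Option.some.injEq] at hq'
    subst hq'
    intro x; rfl

/-- hash value at Omega -/
lemma om_hash (H : KidOK c t) (T : TopOK c t) {Δ : ℕ → Dt} (ho : OmAt c t (om c t)) {h : Hash}
    (hh : OKh (nf c t) (h0 D Δ c t) h) {x : List ℕ}
    (hx : x ∈ Vs ((bodyTo c t 0 (om c t)).map (Reg2.rg D))) :
    nexts ((bodyTo c t 0 (om c t)).map (Reg2.rg D)) h x [] =
      (Δ t).H (tau ((bodyTo c t 0 (om c t)).map (Reg2.rg D)) x) := by
  have hl := length_of_mem_Vs hx
  have hk := length_kz hl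
  rw [nexts_key hl, hh]
  · unfold h0
    rw [if_pos (by rw [List.length_reverse, hk, List.length_map]; rfl), List.reverse_reverse,
      tau_kz hl (fun r hr => last_core H T (goodCut_om T ho) ho.wb hr)]
  · unfold nf
    rw [mem_insert]
    left
    rw [List.length_reverse, hk, List.length_map]
    rfl

/-- hash value at the zone -/
lemma zone_hash {Δ : ℕ → Dt} {Lo Mid Z : List Reg2} {o : ℕ} {h : Hash}
    (hh : OKh (nf c t) (h0 D Δ c t) h) (hLo : Lo.length = idxOm c t)
    (hb : body c t = Lo ++ ([.cell (Ld c o) o] ++ (Mid ++ Z))) (hMid : Mid ++ Z ≠ [])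
    {x y u : List ℕ} {ω : ℕ} (hx : x ∈ Vs (Lo.map (Reg2.rg D)))
    (hy : y ∈ Vs (Mid.map (Reg2.rg D))) (hu : u ∈ Vs (Z.map (Reg2.rg D))) :
    nexts (Z.map (Reg2.rg D)) (nexts (Mid.map (Reg2.rg D))
      ((cellRg o (Ld c o) (D.Sd (Ld c o))).next (nexts (Lo.map (Reg2.rg D)) h x) ω) y) u [] =
      (Δ t).S ω := by
  have l1 := length_of_mem_Vs hx
  have l2 := length_of_mem_Vs hy
  have l3 := length_of_mem_Vs hu
  set O := cellRg o (Ld c o) (D.Sd (Ld c o)) with hO
  have hbody : (body c t).map (Reg2.rg D) = Lo.map (Reg2.rg D) ++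
      ([O] ++ (Mid.map (Reg2.rg D) ++ Z.map (Reg2.rg D))) := by
    rw [hb, List.map_append, List.map_append, List.map_append]
    rfl
  have hlen : (x ++ ([ω] ++ (y ++ u))).length = ((body c t).map (Reg2.rg D)).length := by
    rw [hbody]
    simp only [List.length_append, l1, l2, l3, List.length_cons, List.length_nil]
  have e1 : nexts (Z.map (Reg2.rg D)) (nexts (Mid.map (Reg2.rg D))
      (O.next (nexts (Lo.map (Reg2.rg D)) h x) ω) y) u [] =
      nexts ((body c t).map (Reg2.rg D)) h (x ++ ([ω] ++ (y ++ u))) [] := by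
    rw [hbody, nexts_append l1, nexts_append (A := [O]) (a := [ω]) rfl, nexts_append l2]
    rfl
  rw [e1, nexts_key hlen]
  have hk := length_kz hlen
  have hne : Mid.map (Reg2.rg D) ++ Z.map (Reg2.rg D) ≠ [] := by
    rw [← List.map_append]
    intro h1
    exact hMid (List.map_eq_nil_iff.mp h1)
  have hidx : idxOm c t < (body c t).length := by
    rw [hb]
    simp only [List.length_append, List.length_cons, List.length_nil]
    omega
  rw [hh]
  · unfold h0
    rw [if_neg (by rw [List.length_reverse, hk, List.length_map]; omega), List.reverse_reverse]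
    congr 1
    rw [hbody, kz_append l1 (by simp) (by
      simp only [List.length_append, l2, l3, List.length_cons, List.length_nil]),
      kz_append (A := [O]) (a := [ω]) rfl hne (by
        simp only [List.length_append, l2, l3])]
    have l1' : x.length = idxOm c t := by rw [l1, List.length_map, hLo]
    rw [List.getD_eq_getElem?_getD, List.getElem?_append_right (by omega), l1', Nat.sub_self]
    rfl
  · unfold nf
    rw [mem_insert, mem_singleton]
    right
    rw [List.length_reverse, hk, List.length_map]

end Pool.Agent.E2
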