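import Mathlib
import Pool.Agent.Helper16.E2.Low

/-!
# E-T (MP_12a1af_nt), phase 2: the near theorem
-/

open Finset

namespace Pool.Agent.E2

open Pool.Agent.ETS (Codes Reg IsRest runs IsRun IsCut runs_of_le runs_of_lt rend lt_rend rend_le
  rend_spec of_lt_rend rend_eq isRun_of_mem' runs_split' runs_const runs_congr' PB Pl Hash)
open Pool.Agent.Helper29.ETK (Kid CC kk)
open Pool.Agent.Helper29.E2 (Kid2 kid kid2 kidU kidB ep Wd Hd Ld hh ll av wb zb un mb sb KidOK KCut
  KidSize TopOK Rest2 rank2 fb epo CellAt cellKid UnitAt BlockAt unitKid blockKid NearRest NearCell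
  NearUnit NearBlock OmAt NearK2 om gridL gridU Big)

variable {c t : ℕ} {D : Codes2} {e1 μ A : ℕ} {QW QH : ℕ → Set (Finset ℕ)}

/-- constant hash functions -/
lemma nexts_const (s : ℕ) : ∀ (A : List Rg) (z : List ℕ), nexts A (fun _ => s) z = fun _ => s
  | [], _ => rfl
  | _ :: _, [] => rfl
  | r :: A, x :: z => by
    have h1 : r.next (fun _ => s) x = fun _ => s := by
      funext k
      unfold Rg.next
      split_ifs <;> rfl
    simp only [nexts]
    rw [h1]
    exact nexts_const s A z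

/-- the weighted bound without blocks is the plain bound -/
lemma NBw.toNB {A A' : List Rg} {v B : ℕ} (h : NBw fam0 A A' v B) : NB A A' v B := by
  intro g g' ν
  have h1 := h g g' ν (fun _ => 1) 1 (by
    intro L hL
    have : L = {(0, 0)} := hL
    rw [this]
    simp)
  rw [card_eq_sum_ones]
  refine h1.trans (le_of_eq ?_)
  unfold lc
  simp

/-- all hypotheses of the near theorem at one scale -/
structure Sc (c e1 K : ℕ) : Prop where
  at' : At c e1 K
  big : Big c K

/-- the layout as the lower part and the top -/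
lemma lay_split {G : Geo} {Δ : ℕ → Dt} (HL : Link c D QW QH G Δ) {K w n : ℕ} (hK0 : G.K0 ≤ K)
    (hK : Sc c e1 K) {o : ℕ} (ho : OmAt c K o) (how : o ≤ w) (hw : GoodCut2 c K w)
    (hsb : sb c w = w) (hn : G.q K = G.nx^[n] w) :
    lay D c K = (bodyTo c K 0 w).map (Reg2.rg D) ++ (cl G w n ++ [zn G Δ K]) := by
  have hc := hK.big.hc
  have hz := hw.1
  have hL := Ld_pos c o
  have hzt := zb_le hK.at'.top
  have hbw := ho.wb
  have hep := hK.at'.top.ep w (by omega) (by omega)
  have h10 := hK.big.ht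
  unfold lay layL
  rw [body_eq, bodyTo_append (Nat.zero_le _) hz (hw.isCut' (Nat.zero_le _) hz le_rfl),
    List.map_append, List.map_append, List.append_assoc,
    cells_cl (G := G) hc HL.ln HL.Sd n w (zb c K) (by rw [← hn, HL.q K hK0]) (by omega) hsb
      (fun s h1 h2 => cell_above hK.at'.top (om_self ho) (by omega) h2)]
  have hzone : [zoneReg c K].map (Reg2.rg D) = [zn G Δ K] := by
    show [zoneRg (zb c K) K (Ld c (zb c K)) (D.Sd (Ld c (zb c K))) (D.TK K)] = _
    unfold zn Geo.l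
    rw [HL.q K hK0, HL.ln, HL.Sd, HL.TK K hK0]
  rw [hzone]

lemma above_cl {G : Geo} : ∀ (n a : ℕ), Above a (cl G a n)
  | 0, a => above_nil
  | n + 1, a => by
    intro r hr
    rw [cl, List.mem_cons] at hr
    rcases hr with rfl | hr
    · exact le_rfl
    · have := above_cl n (G.nx a) r hr
      exact le_trans (Nat.le_add_right _ _) this

/-- the bound without blocks -/
theorem near_zero {E : ℕ} {G : Geo} {Δ : ℕ → Dt} (HC : NearCodes2 c e1 D μ A QW QH)
    (HL : Link c D QW QH G Δ) (hG : G.Ok) (hT0 : TopZero G Δ) {K K' : ℕ} (hn : G.Near K K')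
    (hK : Sc c e1 K) (hK' : Sc c e1 K') (hN : NearK2 c K K') (hE : ExpOK c K' E)
    (hT : ¬ G.isT K) (hT' : ¬ G.isT K') :
    NBt (lay D c K) (lay D c K')
      (μ ^ (kws c (body c K') + E) * A * (1600 * G.A K * G.b K)) := by
  have hc := hK.big.hc
  have hK0' : G.K0 ≤ K' := hn.1
  have hK0 : G.K0 ≤ K := hn.1.trans hn.2.1
  have hL := Ld_pos c (om c K')
  have hoz := hN.omA.top
  have hlvl := lvl_zb hK.at'.top hK'.at'.top hN.omB hN.omA hN.zbm
  obtain ⟨n, hcells⟩ := hG.cells K K' hn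
  rw [HL.q K' hK0'] at hcells
  have e1' := lay_split (D := D) HL hK0 hK hN.omB (show om c K' ≤ zb c K' by omega) hlvl.w1
    hK'.at'.top.zb1.2 hcells
  have e2' := lay_split (D := D) (n := 0) HL hK0' hK' hN.omA (show om c K' ≤ zb c K' by omega)
    hlvl.w2 hK'.at'.top.zb1.2 (by rw [HL.q K' hK0']; rfl)
  have hlow := low_NBw HC hK.at' hK'.at' hK.big hK'.big hE hN hlvl le_rfl
    (fun b j j' h => h.unit'.top) (fun f j j' h => h.block'.top)
  have t1 := ts_body hK.at'.top hN.omB (show om c K' ≤ zb c K' by omega) hlvl.w1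
  have t2 := ts_body hK'.at'.top hN.omA (show om c K' ≤ zb c K' by omega) hlvl.w2
  rw [HL.isT K hK0, not_not] at hT
  rw [HL.isT K' hK0', not_not] at hT'
  rw [← t1, ← t2, hT, hT'] at hlow
  have hNB : NB ((bodyTo c K 0 (zb c K')).map (Reg2.rg D))
      ((bodyTo c K' 0 (zb c K')).map (Reg2.rg D)) (zb c K')
      (μ ^ (kws c (body c K') + E) * A) := NBw.toNB hlow
  have htop := hT0 K K' n hn (by rw [HL.q K' hK0']; exact hcells)
  rw [HL.q K' hK0'] at htop
  rw [e1', e2']
  refine NB.append_top hNB htop ?_ ?_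
  · refine (above_cl n _).append (above_single ?_)
    show zb c K' ≤ G.q K
    rw [HL.q K hK0]
    exact hN.zbm
  · refine (above_cl 0 _).append (above_single ?_)
    show zb c K' ≤ G.q K'
    rw [HL.q K' hK0']

lemma chain_low (HC : NearCodes2 c e1 D μ A QW QH) {K w : ℕ} (hK : Sc c e1 K)
    (hw : GoodCut2 c K w) : Chain 0 ((bodyTo c K 0 w).map (Reg2.rg D)) w :=
  chain_bodyTo HC.len hK.at'.ok hK.at'.top hK.at'.epo (Nat.zero_le _) hw (Or.inl rfl)

/-- near pairs with a block have the same Omega -/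
lemma om_eq {K K' : ℕ} (hK : Sc c e1 K) (hK' : Sc c e1 K')
    (hN : NearK2 c K K') (hT : tsL (layL c K) ≠ .none ∨ tsL (layL c K') ≠ .none) :
    om c K = om c K' := by
  have hL := Ld_pos c (om c K')
  have hoz := hN.omA.top
  have hlvl := lvl_zb hK.at'.top hK'.at'.top hN.omB hN.omA hN.zbm
  rcases hN.act with h | ⟨g, b, v, σ, σ', h⟩ | ⟨b, j, j', h⟩ | ⟨f, j, j', h⟩
  · exfalso
    have hact := act_rest h hlvl le_rfl
    obtain ⟨t1, t2⟩ := hact.ts
    rw [← ts_body hK.at'.top hN.omB (show om c K' ≤ zb c K' by omega) hlvl.w1] at t1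
    rw [← ts_body hK'.at'.top hN.omA (show om c K' ≤ zb c K' by omega) hlvl.w2] at t2
    rw [t1, t2] at hT
    simp [tsL] at hT
  · rcases h.om with h1 | ⟨rfl, rfl⟩
    · exact h1
    · exfalso
      have hact := act_cell hK.at'.ok hK'.at'.ok h hlvl le_rfl
      obtain ⟨t1, t2⟩ := hact.ts
      rw [← ts_body hK.at'.top hN.omB (show om c K' ≤ zb c K' by omega) hlvl.w1] at t1
      rw [← ts_body hK'.at'.top hN.omA (show om c K' ≤ zb c K' by omega) hlvl.w2] at t2
      have h2 : tsL ((cellRegs c g b v 2).map Reg2.old) = .none := ts_cell2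
      rw [t1, t2, h2] at hT
      simp at hT
  · exact h.om
  · exact h.om

/-- the common cells between Omega and the zone -/
lemma mid_NB (HC : NearCodes2 c e1 D μ A QW QH) {K' o : ℕ} (hK' : Sc c e1 K')
    (ho : OmAt c K' o) :
    NB ((bodyTo c K' (o + Ld c o) (zb c K')).map (Reg2.rg D))
      ((bodyTo c K' (o + Ld c o) (zb c K')).map (Reg2.rg D)) (zb c K')
      (μ ^ kws c (bodyTo c K' (o + Ld c o) (zb c K'))) := by
  have hL := Ld_pos c o
  have hoz := ho.top
  have hzt := zb_le hK'.at'.top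
  have hbw := ho.wb
  have hep := hK'.at'.top.ep o (by omega) (by omega)
  have h10 := hK'.big.ht
  have hg := goodCut_om' hK'.big.hc hK'.at'.top ho (by omega)
  refine rest_NB HC hK'.at' (w := zb c K') ⟨le_rfl, Or.inl rfl⟩ (by omega) le_rfl
    (hg.isCut' (Nat.zero_le _) hg.1 le_rfl) (Or.inr (Or.inl rfl)) (fun s h1 h2 => ?_)
  rw [cell_above hK'.at'.top (om_self ho) (by omega) h2]
  trivial

/-- the small cells above Omega at both times -/
lemma mid_eq {K K' o : ℕ} (hK : Sc c e1 K) (hK' : Sc c e1 K') (hN : NearK2 c K K')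
    (ho : OmAt c K o) (ho' : OmAt c K' o) :
    bodyTo c K (o + Ld c o) (zb c K') = bodyTo c K' (o + Ld c o) (zb c K') := by
  have hz := hN.zbm
  refine rest_eq (fun s h1 h2 => ?_)
  rw [cell_above hK.at'.top (om_self ho) (by omega) (by omega),
    cell_above hK'.at'.top (om_self ho') (by omega) h2]
  exact ⟨rfl, trivial⟩

/-- **the bound with blocks** -/
theorem near_T {E : ℕ} {G : Geo} {Δ : ℕ → Dt} (HC : NearCodes2 c e1 D μ A QW QH)
    (HL : Link c D QW QH G Δ) (hG : G.Ok) (hTL : TopList G Δ) {K K' : ℕ} (hn : G.Near K K')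
    (hK : Sc c e1 K) (hK' : Sc c e1 K') (hN : NearK2 c K K') (hE : ExpOK c K' E)
    (hT : G.isT K ∨ G.isT K') {h h' : Hash} (hh1 : OKh (nf c K) (h0 D Δ c K) h)
    (hh2 : OKh (nf c K') (h0 D Δ c K') h') (ν : ℕ) :
    cnt (lay D c K) (lay D c K') h h' ν ≤
      μ ^ (kws c (bodyTo c K' 0 (om c K')) + E) * A *
        lc (4 * μ ^ kws c (bodyTo c K' (om c K' + Ld c (om c K')) (zb c K')) *
          (10 ^ 6 * G.A K * G.b K ^ 3)) := by
  have hc := hK.big.hc
  have hK0' : G.K0 ≤ K' := hn.1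
  have hK0 : G.K0 ≤ K := hn.1.trans hn.2.1
  have hTs : tsL (layL c K) ≠ .none ∨ tsL (layL c K') ≠ .none := by
    rcases hT with hT | hT
    · left; exact (HL.isT K hK0).mp hT
    · right; exact (HL.isT K' hK0').mp hT
  have hom := om_eq hK hK' hN hTs
  have hA := hN.omA
  have hB := hN.omB
  have hL := Ld_pos c (om c K')
  have hoz := hA.top
  have hzt := zb_le hK'.at'.top
  have hbw := hA.wb
  have h10 := hK'.big.ht
  have hep := hK'.at'.top.ep (om c K') (by omega) (by omega)
  have hzm := hN.zbm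
  have hlz := lvl_zb hK.at'.top hK'.at'.top hB hA hzm
  have hlo := lvl_om hK.at'.top hK'.at'.top hB hA
  obtain ⟨n, hcells⟩ := hG.cells K K' hn
  rw [HL.q K' hK0'] at hcells
  have s1 := lay_split (D := D) HL hK0 hK hB (show om c K' ≤ zb c K' by omega) hlz.w1
    hK'.at'.top.zb1.2 hcells
  have s2 := lay_split (D := D) (n := 0) HL hK0' hK' hA (show om c K' ≤ zb c K' by omega)
    hlz.w2 hK'.at'.top.zb1.2 (by rw [HL.q K' hK0']; rfl)
  have b1 := body_om hc hK.at'.top hB (by omega) (w := zb c K') (by omega) hzm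
  have b2 := body_om hc hK'.at'.top hA (by omega) (w := zb c K') (by omega) le_rfl
  have hme := mid_eq hK hK' hN hB hA
  rw [hme] at b1
  have hcellrg : ∀ o, ([.cell (Ld c o) o] : List Reg2).map (Reg2.rg D) =
    [cellRg o (Ld c o) (D.Sd (Ld c o))] := fun _ => rfl
  -- the whole layouts
  have w1 : lay D c K = (bodyTo c K 0 (om c K')).map (Reg2.rg D) ++
      ([cellRg (om c K') (Ld c (om c K')) (D.Sd (Ld c (om c K')))] ++
        ((bodyTo c K' (om c K' + Ld c (om c K')) (zb c K')).map (Reg2.rg D) ++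
          (cl G (zb c K') n ++ [zn G Δ K]))) := by
    rw [s1, b1, List.map_append, List.map_append, hcellrg]
    simp only [List.append_assoc]
  have w2 : lay D c K' = (bodyTo c K' 0 (om c K')).map (Reg2.rg D) ++
      ([cellRg (om c K') (Ld c (om c K')) (D.Sd (Ld c (om c K')))] ++
        ((bodyTo c K' (om c K' + Ld c (om c K')) (zb c K')).map (Reg2.rg D) ++
          [zn G Δ K'])) := by
    rw [s2, b2, List.map_append, List.map_append, hcellrg]
    simp only [List.append_assoc]
    rfl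
  -- the lower part
  have hlow := low_NBw HC hK.at' hK'.at' hK.big hK'.big hE hN hlo (by omega)
    (fun b j j' h => unit_le_om hK.at'.top h.hj h.unit hB)
    (fun f j j' h => block_le_om hK.at'.top (by
      have := h.adj
      have := h.act
      omega) h.hj h.block hB)
  rw [← ts_body hK.at'.top hB le_rfl hlo.w1, ← ts_body hK'.at'.top hA le_rfl hlo.w2] at hlow
  have hMid := mid_NB HC hK' hA
  have hMc : Chain (om c K' + Ld c (om c K'))
      ((bodyTo c K' (om c K' + Ld c (om c K')) (zb c K')).map (Reg2.rg D)) (zb c K') := by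
    have hg := goodCut_om' hc hK'.at'.top hA (by omega)
    exact chain_bodyTo HC.len hK'.at'.ok hK'.at'.top hK'.at'.epo (by omega)
      ⟨le_rfl, Or.inl rfl⟩ (hg.isCut' (Nat.zero_le _) hg.1 le_rfl)
  -- the bodies of the two scales
  have hidx : (bodyTo c K 0 (om c K')).length = idxOm c K := by
    unfold idxOm
    rw [hom]
  have hbodyK : body c K = bodyTo c K 0 (om c K') ++ ([.cell (Ld c (om c K')) (om c K')] ++
      (bodyTo c K' (om c K' + Ld c (om c K')) (zb c K') ++
        bodyTo c K (zb c K') (zb c K))) := by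
    rw [body_eq, bodyTo_append (Nat.zero_le _) hzm (hlz.w1.isCut' (Nat.zero_le _) hzm le_rfl), b1]
    simp only [List.append_assoc]
  have hbodyK' : body c K' = bodyTo c K' 0 (om c K') ++ ([.cell (Ld c (om c K')) (om c K')] ++
      (bodyTo c K' (om c K' + Ld c (om c K')) (zb c K') ++ [])) := by
    rw [body_eq, b2, List.append_nil]
  have hMne : bodyTo c K' (om c K' + Ld c (om c K')) (zb c K') ≠ [] := by
    unfold bodyTo
    rw [runs_of_lt _ (show om c K' + Ld c (om c K') < zb c K' by omega), List.flatMap_cons]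
    intro h1
    exact toRegs2_ne_nil _ (List.append_eq_nil_iff.mp h1).1
  have hcl : (bodyTo c K (zb c K') (zb c K)).map (Reg2.rg D) = cl G (zb c K') n := by
    have hepz := hK'.at'.top.ep (zb c K') hK'.at'.top.wbz hzt
    exact cells_cl (G := G) hc HL.ln HL.Sd n (zb c K') (zb c K) (by
      rw [← hcells, HL.q K hK0]) (by omega) hK'.at'.top.zb1.2
      (fun s h1 h2 => cell_above hK.at'.top (om_self hB) (by omega) h2)
  rw [w1, w2]
  refine glue_T (o := om c K') (l := Ld c (om c K')) (z := zb c K')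
    (H := (Δ K).H) (H' := (Δ K').H) (S := (Δ K).S) (S' := (Δ K').S)
    (P := fun g s => ∀ y ∈ Vs (cl G (zb c K') n), nexts (cl G (zb c K') n) g y [] = s)
    (P' := fun g s => g [] = s) hlow (chain_low HC hK hlo.w1) (chain_low HC hK' hlo.w2) hMid hMc
    ?_ ?_ ?_ ?_ ?_ ?_ ?_ ?_ ?_ ν
  · refine (above_cl n _).append (above_single ?_)
    show zb c K' ≤ G.q K
    rw [HL.q K hK0]
    exact hzm
  · refine above_single ?_
    show zb c K' ≤ G.q K'
    rw [HL.q K' hK0']
  · intro s
    exact ⟨fun _ => s, fun y _ => by rw [nexts_const]⟩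
  · intro s
    exact ⟨fun _ => s, rfl⟩
  · intro L hL m n' f hf
    have hL2 := HL.LF K K' hn hT L hL
    have hlO : G.lO K = Ld c (om c K') := by rw [HL.lO K hK0, hom]
    have hLam : Lam G Δ K K' L m = LamA (D.Sd (Ld c (om c K'))) (Ld c (om c K')) (Δ K).H
        (Δ K').H L m := by
      unfold Lam LamA
      rw [hlO, HL.Sd]
    have h1 := hTL K K' n hn hT (by rw [HL.q K' hK0']; exact hcells) L hL2 m n' f
    rw [hLam, HL.q K' hK0'] at h1
    exact h1 hf
  · intro x hx
    have h1 := om_hash hK.at'.ok hK.at'.top (D := D) (Δ := Δ) (by rw [hom]; exact hB) hh1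
      (x := x) (by rw [hom]; exact hx)
    rw [hom] at h1
    exact h1
  · intro x hx
    exact om_hash hK'.at'.ok hK'.at'.top (D := D) (Δ := Δ) hA hh2 hx
  · intro x hx ω hω y hy u hu
    rw [← hcl] at hu ⊢
    exact zone_hash hh1 hidx hbodyK (by
      intro h1
      exact hMne (List.append_eq_nil_iff.mp h1).1) hx hy hu
  · intro x hx ω hω y hy
    have h1 := zone_hash (D := D) (Δ := Δ) hh2 rfl hbodyK' (by simpa using hMne) hx hy
      (u := []) (ω := ω) (by simp)
    exact h1

/-- **the near theorem** -/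
theorem near_all {E : ℕ} {G : Geo} {Δ : ℕ → Dt} (hc : 10 ≤ c)
    (HC : NearCodes2 c e1 D μ A QW QH) (HL : Link c D QW QH G Δ)
    (hG : G.Ok) (hT0 : TopZero G Δ) (hTL : TopList G Δ)
    (hAt : ∀ K, G.K0 ≤ K → At c e1 K ∧ 10 ≤ epo c K ∧ 4 * c ≤ kk (epo c K) + 8)
    (hN : ∀ K K', G.Near K K' → NearK2 c K K') {K K' : ℕ} (hn : G.Near K K')
    (hE : 2 ≤ E ∧ hh c (epo c K') / ll c (epo c K') ≤ E ∧
      hh c (epo c K' + 1) / ll c (epo c K' + 1) ≤ E ∧
      CC c ^ epo c K' / hh c (epo c K') ≤ E ∧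
      CC c ^ (epo c K' + 1) / hh c (epo c K' + 1) ≤ E) {h h' : Hash}
    (hh1 : OKh (nf c K) (h0 D Δ c K) h) (hh2 : OKh (nf c K') (h0 D Δ c K') h') (ν : ℕ) :
    ((Vs (lay D c K) ×ˢ Vs (lay D c K')).filter (fun q =>
      val (lay D c K) h q.1 + val (lay D c K') h' q.2 = ν)).card ≤
      nearB μ A ((body c K').length + 2 * E) E (10 ^ 6 * G.A K * G.b K ^ 3) := by
  have hK0' : G.K0 ≤ K' := hn.1
  have hK0 : G.K0 ≤ K := hn.1.trans hn.2.1
  have hμ : 1 ≤ μ := le_trans (by norm_num) HC.mu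
  obtain ⟨a1, a2, a3⟩ := hAt K hK0
  obtain ⟨a1', a2', a3'⟩ := hAt K' hK0'
  have hK : Sc c e1 K := ⟨a1, ⟨hc, a2, a3⟩⟩
  have hK' : Sc c e1 K' := ⟨a1', ⟨hc, a2', a3'⟩⟩
  have hE' : ExpOK c K' E := ⟨hE.1, hE.2.1, hE.2.2.1, hE.2.2.2.1, hE.2.2.2.2⟩
  have hNK := hN K K' hn
  have hkw := kws_body a1'.top hE'
  set M := (body c K').length + 2 * E with hM
  set BT := 10 ^ 6 * G.A K * G.b K ^ 3 with hBT
  have hb1 : 1 ≤ G.b K := le_trans (by norm_num) (hG.b_pos K hK0)
  show cnt (lay D c K) (lay D c K') h h' ν ≤ _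
  by_cases hT : G.isT K ∨ G.isT K'
  · refine (near_T HC HL hG hTL hn hK hK' hNK hE' hT hh1 hh2 ν).trans ?_
    have hL := Ld_pos c (om c K')
    have hoz := hNK.omA.top
    have hzt := zb_le a1'.top
    have hbw := hNK.omA.wb
    have hep := a1'.top.ep (om c K') (by omega) (by omega)
    have b2 := body_om hc a1'.top hNK.omA (by omega) (w := zb c K') (by omega) le_rfl
    have hsum : kws c (bodyTo c K' 0 (om c K')) +
        kws c (bodyTo c K' (om c K' + Ld c (om c K')) (zb c K')) ≤ M := by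
      refine le_trans ?_ hkw
      rw [body_eq, b2, kws_append, kws_append]
      omega
    generalize kws c (bodyTo c K' 0 (om c K')) = k1 at hsum ⊢
    generalize kws c (bodyTo c K' (om c K' + Ld c (om c K')) (zb c K')) = k2 at hsum ⊢
    unfold lc nearB
    calc μ ^ (k1 + E) * A * (4 * μ ^ k2 * BT * (Nat.log 2 (4 * μ ^ k2 * BT) + 1))
        = μ ^ (k1 + k2 + E) * A * (4 * BT * (Nat.log 2 (4 * μ ^ k2 * BT) + 1)) := by
          rw [show k1 + k2 + E = k1 + E + k2 by ring, pow_add _ _ k2]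
          ring
      _ ≤ μ ^ (M + E) * A * (4 * BT * (Nat.log 2 (4 * μ ^ M * BT) + 1)) := by
          refine Nat.mul_le_mul (Nat.mul_le_mul_right _
            (Nat.pow_le_pow_right hμ (by omega))) (Nat.mul_le_mul_left _ ?_)
          refine Nat.add_le_add_right (Nat.log_mono_right ?_) 1
          exact Nat.mul_le_mul_right _ (Nat.mul_le_mul_left _
            (Nat.pow_le_pow_right hμ (by omega)))
  · push Not at hT
    have h1 := near_zero HC HL hG hT0 hn hK hK' hNK hE' hT.1 hT.2 h h' ν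
    refine le_trans h1 ?_
    unfold nearB
    have h2 : 1600 * G.A K * G.b K ≤ 4 * BT * (Nat.log 2 (4 * μ ^ M * BT) + 1) := by
      refine le_trans ?_ (Nat.le_mul_of_pos_right _ (Nat.succ_pos _))
      rw [hBT]
      have h3 : G.b K ≤ G.b K ^ 3 := Nat.le_self_pow (by norm_num) _
      calc 1600 * G.A K * G.b K ≤ 4 * 10 ^ 6 * G.A K * G.b K ^ 3 := by
            refine Nat.mul_le_mul (Nat.mul_le_mul_right _ (by norm_num)) h3
        _ = 4 * (10 ^ 6 * G.A K * G.b K ^ 3) := by ring
    exact Nat.mul_le_mul (Nat.mul_le_mul_right _ (Nat.pow_le_pow_right hμ (by omega))) h2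

end Pool.Agent.E2
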