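import Mathlib
import Pool.Agent.Helper16.E2.NearAll

/-!
# E-T (MP_12a1af_nt), phase 2: the T-states of the layouts
-/

open Finset

namespace Pool.Agent.E2

open Pool.Agent.Helper29.ETK (Kid CC kk)
open Pool.Agent.Helper29.E2 (ep Wd Hd Ld wb zb TopOK OmAt NearK2 om NearRest NearCell NearUnit
  NearBlock)

variable {c e1 : ℕ}

/-- T-state of a cell of T* in the state `σ` -/
def tsC (c b v σ : ℕ) : TS :=
  if σ = 1 then .W (ep c b) else if σ = 3 ∧ b + Wd c b < v then .W (ep c (b + Wd c b)) else .none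

/-- **the T-states of two close scales** -/
theorem ts_near {K K' : ℕ} (hK : Sc c e1 K) (hK' : Sc c e1 K') (hN : NearK2 c K K') :
    (NearRest c K K' ∧ tsL (layL c K) = .none ∧ tsL (layL c K') = .none) ∨
    (∃ g b v σ σ', NearCell c K K' g b v σ σ' ∧ tsL (layL c K) = tsC c b v σ ∧
      tsL (layL c K') = tsC c b v σ') ∨
    (∃ b j j', NearUnit c K K' b j j' ∧
      (tsL (layL c K) = if j = 2 then .W (ep c b) else .none) ∧
      (tsL (layL c K') = if j' = 2 then .W (ep c b) else .none)) ∨
    (∃ f j j', NearBlock c K K' f j j' ∧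
      (tsL (layL c K) = if j = 2 then .H (ep c f) else .none) ∧
      (tsL (layL c K') = if j' = 2 then .H (ep c f) else .none)) := by
  have hc := hK.big.hc
  have hL := Ld_pos c (om c K')
  have hoz := hN.omA.top
  have hzt := zb_le hK'.at'.top
  have hlvl := lvl_zb hK.at'.top hK'.at'.top hN.omB hN.omA hN.zbm
  have b1 := ts_body hK.at'.top hN.omB (show om c K' ≤ zb c K' by omega) hlvl.w1
  have b2 := ts_body hK'.at'.top hN.omA (show om c K' ≤ zb c K' by omega) hlvl.w2
  have h10 := hK'.big.ht
  rcases hN.act with h | ⟨g, b, v, σ, σ', h⟩ | ⟨b, j, j', h⟩ | ⟨f, j, j', h⟩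
  · left
    obtain ⟨t1, t2⟩ := (act_rest h hlvl le_rfl).ts
    exact ⟨h, b1.trans t1, b2.trans t2⟩
  · right; left
    obtain ⟨t1, t2⟩ := (act_cell hK.at'.ok hK'.at'.ok h hlvl le_rfl).ts
    exact ⟨g, b, v, σ, σ', h, (b1.trans t1).trans (ts_cellRegs h.hσ),
      (b2.trans t2).trans (ts_cellRegs h.hσ')⟩
  · right; right; left
    have hbw := h.unit'.top
    have hWp := Wd_pos c b
    have hep := ep_act hK'.big h.unit' (by omega)
    have hkk : 4 * c ≤ kk (ep c b) + 10 := by
      have := hK'.big.hk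
      have := Helper29.E2.kk_mono hep.1
      omega
    have hj' : j' ≤ 3 := by
      have := h.adj
      have := h.hj
      omega
    obtain ⟨t1, t2⟩ := (act_unit hc h hlvl le_rfl hbw (by omega) hkk).ts
    exact ⟨b, j, j', h, (b1.trans t1).trans (ts_unit h.hj), (b2.trans t2).trans (ts_unit hj')⟩
  · right; right; right
    have hfw := h.block'.top
    have hHp := Hd_pos c f
    have hep := hK'.at'.top.ep f h.block'.wb (by omega)
    have hj' : j' ≤ 3 := by
      have := h.adj
      have := h.hj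
      omega
    obtain ⟨t1, t2⟩ := (act_block hc h hlvl le_rfl hfw (by omega)).ts
    exact ⟨f, j, j', h, (b1.trans t1).trans (ts_block h.hj), (b2.trans t2).trans (ts_block hj')⟩

end Pool.Agent.E2
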